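import Pool.Agent.H93.BB.TabCheck

set_option autoImplicit false

/-!
# Tableaux of computations: the main theorem
-/

namespace Pool.Agent.H93.BB

open Pool.Agent.H88.RO Pool.Agent.H88.RO.Tr Tab

/-- Computations of exponential length can be encoded into oracles such that the correctness of
the encoding is the conjunction of exponentially many local conditions. -/
theorem exists_TAB (cW : Prog) (C : ℕ) :
    ∃ (R1 : Orc → List Bool → List Bool → Bool) (c1 : Prog) (q1 : Polynomial ℕ),
      (∀ A z u, ∃ t ≤ q1.eval (z.length + u.length),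
        Eval (join A zero) c1 (node (enc z) (enc u)) (bit (R1 A z u)) t) ∧
      (∀ A z u, R1 A z u = true → u.length ≤ q1.eval z.length) ∧
      (∀ z, (∃ A, ∀ u, R1 A z u = false) →
        ∃ Y v t, v ≠ leaf ∧ Eval zero cW (node (enc z) Y) v t) ∧
      (∀ z Y v t, v ≠ leaf → Eval zero cW (node (enc z) Y) v t → t ≤ 2 ^ (C * z.length + C) →
        ∃ A, ∀ u, R1 A z u = false) := by
  classical
  set S := size (code cW) with hS
  set D := 2 * C + S + 4 with hD
  have hspec : ∀ (A : Orc) (z u : List Bool),
      chT D (code cW) (join A zero) (node (enc z) (enc u)) ≠ leaf ↔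
      decide (chT D (code cW) (join A zero) (node (enc z) (enc u)) ≠ leaf) = true := by
    intro A z u
    rw [decide_eq_true_eq]
  obtain ⟨c1, q, hq⟩ := exists_URel (B := zero) (UFP_chT D (code cW))
    (R := fun A z u => decide (chT D (code cW) (join A zero) (node (enc z) (enc u)) ≠ leaf)) hspec
  have hK : ∀ z : List Bool, size (code cW) + size (enc z) ≤ D * (z.length + 1) := by
    intro z
    have h1 := size_enc_le z
    have h2 : 4 * (z.length + 1) + S * (z.length + 1) ≤ D * (z.length + 1) := by
      rw [← Nat.add_mul]
      exact Nat.mul_le_mul_right _ (by omega)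
    have h3 : S * 1 ≤ S * (z.length + 1) := Nat.mul_le_mul_left _ (by omega)
    omega
  refine ⟨fun A z u => decide (chT D (code cW) (join A zero) (node (enc z) (enc u)) ≠ leaf), c1,
    q + Polynomial.C D * Polynomial.X + Polynomial.C D + 1, ?_, ?_, ?_, ?_⟩
  · intro A z u
    obtain ⟨t, ht, he⟩ := hq A z u
    refine ⟨t, ht.trans ?_, he⟩
    simp only [Polynomial.eval_add]
    omega
  · intro A z u h
    simp only [decide_eq_true_eq] at h
    simp only [Polynomial.eval_add, Polynomial.eval_mul, Polynomial.eval_C, Polynomial.eval_X,
      Polynomial.eval_one]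
    cases u with
    | nil => simp
    | cons b a =>
      have h1 : a.length = D * (z.length + 1) := by
        by_contra h2
        exact h ((chT_cons A b a).mpr (fun h3 => absurd h3 h2))
      rw [List.length_cons, h1]
      ring_nf
      omega
  · rintro z ⟨A, hA⟩
    have hA' : ∀ u, chT D (code cW) (join A zero) (node (enc z) (enc u)) = leaf := by
      intro u
      have := hA u
      rw [decide_eq_false_iff_not, not_not] at this
      exact this
    refine sound_STab (A := A) (N := D * (z.length + 1)) ?_ ?_ ((chT_nil A (hK z)).mp (hA' []))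
    · intro a ha
      exact (chT_cons A false a).mp (hA' (false :: a)) ha
    · intro a ha
      exact (chT_cons A true a).mp (hA' (true :: a)) ha
  · intro z Y v t hv he ht
    obtain ⟨F, hF, hb⟩ := exists_NTab he
    have hN : ∀ k i, F k i < 2 ^ (D * (z.length + 1)) := by
      intro k i
      refine (hb k i).trans_lt ?_
      have ht0 : 1 ≤ t := by have := he.cost_ge; omega
      have h1 : t * (size (code cW) + t + 2 * t) + 1 ≤ (t * t) * (S + 4) := by
        have e1 : t * (size (code cW) + t + 2 * t) = t * S + 3 * (t * t) := by rw [← hS]; ring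
        have e2 : (t * t) * (S + 4) = (t * t) * S + 4 * (t * t) := by ring
        have e3 : t * S ≤ (t * t) * S := Nat.mul_le_mul_right _ (Nat.le_mul_of_pos_left _ ht0)
        have e4 : 1 * 1 ≤ t * t := Nat.mul_le_mul ht0 ht0
        omega
      refine h1.trans_lt ?_
      have h2 : t * t ≤ 2 ^ (C * z.length + C) * 2 ^ (C * z.length + C) := Nat.mul_le_mul ht ht
      have h3 : S + 4 < 2 ^ (S + 4) := Nat.lt_two_pow_self
      have h4 : (t * t) * (S + 4) < 2 ^ (C * z.length + C) * 2 ^ (C * z.length + C) * 2 ^ (S + 4) := by
        calc (t * t) * (S + 4) ≤ 2 ^ (C * z.length + C) * 2 ^ (C * z.length + C) * (S + 4) :=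
              Nat.mul_le_mul_right _ h2
          _ < _ := (Nat.mul_lt_mul_left (by positivity)).mpr h3
      refine h4.trans_le ?_
      rw [← pow_add, ← pow_add]
      apply Nat.pow_le_pow_right (by norm_num)
      have e5 : D * (z.length + 1) = 2 * (C * z.length) + 2 * C + (S * z.length) + S +
        4 * z.length + 4 := by rw [hD]; ring
      omega
    obtain ⟨g1, g2, g3⟩ := complete_STab hF hN hv
    refine ⟨orc F, fun u => ?_⟩
    rw [decide_eq_false_iff_not, not_not]
    cases u with
    | nil => exact (chT_nil _ (hK z)).mpr g3
    | cons b a =>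
      refine (chT_cons _ b a).mpr (fun ha => ?_)
      cases b with
      | false => exact g1 a ha
      | true => exact g2 a ha

end Pool.Agent.H93.BB
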