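import Pool.Agent.H93.BB.Jfp
import Pool.Agent.H65.TS.Self

set_option autoImplicit false

/-!
# A base oracle relative to which type-2 TFNP has a complete problem
-/

namespace Pool.Agent.H93.BB

open Pool.Agent.H88.RO Pool.Agent.H88.RO.Tr Pool.Agent.H65.TS

/-! ### the universal machine is uniform in the oracle -/

theorem UFP.step' {S : Orc → Tr → Tr} (hS : UFP S) : UFP (fun O v => step O (S O v)) := by
  have h : UFP (fun O s => step O s) := by
    have hid : UFP (fun _ s => s) := UFP.id'
    have hq : UFP (fun O s => bit (O (dec (fst (snd s))))) :=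
      UFP.query' (UFP.fst' (UFP.snd' hid))
    unfold step stepRet stepEv
    (repeat (first | assumption | with_reducible exact UFP.id' | with_reducible apply UFP.fst' | with_reducible apply UFP.snd' | with_reducible apply UFP.node' | with_reducible apply UFP.ite' | with_reducible exact UFP.const' _))
  exact UFP.comp' h hS

theorem UFP.U' {F G H : Orc → Tr → Tr} (hF : UFP F) (hG : UFP G) (hH : UFP H) :
    UFP (fun O v => U O (F O v) (G O v) (len (H O v))) := by
  have hc : UFP (fun O x => cstepT O x) := by
    unfold cstepT
    have h1 : UFP (fun _ v => fst v) := UFP.fst' UFP.id'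
    have h2 : UFP (fun _ v => snd v) := UFP.snd' UFP.id'
    exact UFP.node' h1 (UFP.ite' (UFP.pure (FP.sizeT' (FP.snd' FP.id') (FP.fst' FP.id')))
      (UFP.step' h2) UFP.leaf')
  have h1 : UFP (fun O v => (cstepT O)^[len (H O v)] (node (H O v) (node (F O v)
      (node (G O v) leaf)))) := by
    refine UFP.iterate' (F := fun O x => cstepT O x) hc hH (UFP.node' hH (UFP.node' hF
      (UFP.node' hG UFP.leaf'))) ⟨3 * Polynomial.X + 30, fun O n x i _ => ?_⟩
    have h2 : ∀ i, fst ((cstepT O)^[i] x) = fst x := by
      intro i
      induction i with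
      | zero => rfl
      | succ i ih => rw [Function.iterate_succ_apply']; simpa [cstepT] using ih
    simp only [Polynomial.eval_add, Polynomial.eval_mul, Polynomial.eval_ofNat, Polynomial.eval_X]
    cases i with
    | zero => simp; omega
    | succ i =>
      have h3 : (fun x => cstepT O x)^[i + 1] x =
          node (fst x) (cstep O (len (fst x)) (snd ((cstepT O)^[i] x))) := by
        have e : (fun x => cstepT O x)^[i + 1] x = cstepT O ((cstepT O)^[i] x) := by
          rw [← Function.iterate_succ_apply' (cstepT O)]
        rw [e, cstepT, h2 i]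
        simp only [sizeT_eq_leaf, cstep]
      rw [h3]
      have h4 := size_cstep_le (O := O) (len (fst x)) (snd ((cstepT O)^[i] x))
      have h5 := len_le_size (fst x)
      have h6 := size_fst_le x
      simp only [size]
      omega
  have h2 : FP zero (fun v => out (len (fst v)) (snd v)) := by
    have : (fun v => out (len (fst v)) (snd v)) = fun v =>
        if sizeT (snd v) (fst v) = leaf then
          (if snd v = leaf then leaf else if fst (snd v) = leaf then
          (if snd (snd (snd v)) = leaf then node leaf (fst (snd (snd v))) else leaf) else leaf)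
        else leaf := by
      funext v
      simp only [out, sizeT_eq_leaf]
    rw [this]
    refine FP.ite' (FP.sizeT' (FP.snd' FP.id') (FP.fst' FP.id')) ?_ FP.leaf'
    (repeat (first | with_reducible exact FP.id' | assumption | with_reducible apply FP.fst' | with_reducible apply FP.snd' | with_reducible apply FP.node' | with_reducible apply FP.ite' | with_reducible exact FP.const' _))
  have h3 := UFP.pure' h2 h1
  have h4 : (fun (O : Orc) v => U O (F O v) (G O v) (len (H O v))) = fun O v =>
      out (len (fst ((cstepT O)^[len (H O v)] (node (H O v) (node (F O v) (node (G O v) leaf))))))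
        (snd ((cstepT O)^[len (H O v)] (node (H O v) (node (F O v) (node (G O v) leaf))))) := by
    funext O v
    rw [cstepT_iter]
    rfl
  rw [h4]
  exact h3

theorem UFP.usT' {F G H X Y : Orc → Tr → Tr}
    (hF : UFP F) (hG : UFP G) (hH : UFP H) (hX : UFP X) (hY : UFP Y) :
    UFP (fun O v => usT O (F O v) (G O v) (H O v) (X O v) (Y O v)) := by
  unfold usT
  have h1 : UFP (fun O v => dropU (H O v) (Y O v)) := by
    have := UFP.pure' (F := fun v => dropU (fst v) (snd v))
      (FP.dropU' (FP.fst' FP.id') (FP.snd' FP.id')) (UFP.node' hH hY)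
    exact this
  have h2 : UFP (fun O v => machT (F O v)) :=
    UFP.pure' (F := fun v => machT v) (FP.machT' FP.id') hF
  exact UFP.cs' h1 (UFP.snd' (UFP.U' h2 (UFP.node' hX hY) hG)) UFP.leaf'

/-! ### the base oracle -/

open Classical in
/-- the self-referential tally set: it says which numbered machines describe problems that are
total for all oracles -/
noncomputable def slf2 (m : ℕ) : Bool :=
  decide (∃ K N i n, m = cde K N i n ∧
    ∀ A : Orc, Totl (join A (tal (fun k => if _ : k < m then slf2 k else false))) K N i n)
termination_by m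

theorem join_tal_congr2 {f g : ℕ → Bool} (A : Orc) {q : List Bool}
    (h : ∀ k, k < q.length → f k = g k) : join A (tal f) q = join A (tal g) q := by
  cases q with
  | nil => rfl
  | cons b q =>
    cases b with
    | false => rfl
    | true =>
      have h1 : tal f q = tal g q := tal_congr (h _ (by simp))
      exact h1

open Classical in
theorem slf2_spec (K N i n : ℕ) :
    slf2 (cde K N i n) = true ↔ ∀ A : Orc, Totl (join A (tal slf2)) K N i n := by
  have key : ∀ A : Orc, Totl (join A (tal (fun k => if _ : k < cde K N i n then slf2 k else false)))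
      K N i n ↔ Totl (join A (tal slf2)) K N i n := by
    intro A
    apply Totl_congr
    intro q hq
    apply join_tal_congr2
    intro k hk
    have := lt_cde K N i n
    rw [dif_pos (by omega)]
  simp only [← key]
  rw [slf2, decide_eq_true_eq]
  constructor
  · rintro ⟨K', N', i', n', h1, h2⟩
    obtain ⟨rfl, rfl, rfl, rfl⟩ := cde_inj h1
    exact h2
  · intro h
    exact ⟨K, N, i, n, rfl, h⟩

/-- ask the second oracle about the string of `len w` ones -/
def askB (O : Orc) (w : Tr) : Tr := bit (O (dec (node tt (onesPre w leaf))))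

theorem askB_spec (A : Orc) (f : ℕ → Bool) (w : Tr) :
    askB (join A (tal f)) w ≠ leaf ↔ f (len w) = true := by
  have e : dec (node tt (onesPre w leaf)) = true :: List.replicate (len w) true := by
    have h1 := onesPre_enc w []
    rw [List.append_nil] at h1
    have h2 : onesPre w leaf = enc (List.replicate (len w) true) := h1
    rw [h2]
    show decide (tt ≠ leaf) :: dec _ = _
    rw [dec_enc]
    simp
  rw [askB, e, bit_ne_leaf]
  have : join A (tal f) (true :: List.replicate (len w) true) =
    tal f (List.replicate (len w) true) := rfl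
  rw [this, tal_replicate]

/-- the relation of the complete problem -/
def RS2 (A : Orc) (z y : List Bool) : Prop :=
  slf2 (cde (zK z) (zN z) (zi z) (zx z).length) = true →
    Usol (join A (tal slf2)) (zi z) (zK z) (zN z) (zx z) y

open Classical in
theorem polyTime_RS2 : ∃ (c : Prog) (q : Polynomial ℕ), ∀ (A : Orc) (x y : List Bool),
    ∃ t ≤ q.eval (x.length + y.length),
      Eval (join A (tal slf2)) c (node (enc x) (enc y)) (bit (decide (RS2 A x y))) t := by
  have hz : FP zero (fun v => fst v) := FP.fst' FP.id'
  have hy : UFP (fun _ v => snd v) := UFP.snd' UFP.id'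
  have h1 := UFP.pure (FP.cdeT' (FP.tK' hz) (FP.tN' hz) (FP.ti' hz) (FP.tx' hz))
  have h2 := UFP.usT' (UFP.pure (FP.ti' hz)) (UFP.pure (FP.tK' hz)) (UFP.pure (FP.tN' hz))
    (UFP.pure (FP.tx' hz)) hy
  have h3 : UFP (fun O v => askB O (cdeT (tK (fst v)) (tN (fst v)) (ti (fst v)) (tx (fst v)))) := by
    have hp : UFP (fun (_ : Orc) v => onesPre (cdeT (tK (fst v)) (tN (fst v)) (ti (fst v))
        (tx (fst v))) leaf) :=
      UFP.pure (FP.onesPre' (FP.cdeT' (FP.tK' hz) (FP.tN' hz) (FP.ti' hz) (FP.tx' hz)) FP.leaf')
    exact UFP.query' (UFP.node' (UFP.const' tt) hp)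
  have hF := UFP.cs' h3 (UFP.const' tt) h2
  refine exists_of_JFP (JFP.of_UFP hF) (fun A z y => ?_)
  rw [decide_eq_true_eq]
  unfold RS2
  simp only [fst_node, snd_node]
  rw [tK_enc, tN_enc, ti_enc, tx_enc, cdeT_eq, len_num, len_num, len_num, len_enc]
  by_cases h : slf2 (cde (zK z) (zN z) (zi z) (zx z).length) = true
  · rw [cs_neg _ _ ((askB_spec _ _ _).mpr (by rw [len_num]; exact h)), usT_spec]
    simp [h, len_num]
  · rw [cs_pos _ _ (by
      by_contra hcon
      have := (askB_spec _ _ _).mp hcon
      rw [len_num] at this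
      exact h this)]
    simp [h]

open Classical in
/-- the complete problem -/
noncomputable def TB : TFNP2 (tal slf2) where
  R := fun A z y => decide (RS2 A z y)
  p := Polynomial.X
  polyTime := polyTime_RS2
  total := by
    intro A z
    simp only [decide_eq_true_eq, Polynomial.eval_X]
    by_cases h : slf2 (cde (zK z) (zN z) (zi z) (zx z).length) = true
    · obtain ⟨y, hy⟩ := (slf2_spec _ _ _ _).mp h A (zx z) rfl
      refine ⟨y, ?_, fun _ => hy⟩
      have h1 := hy.1
      have h2 := z_le z
      omega
    · exact ⟨[], by simp, fun h' => absurd h' h⟩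

/-- every type-2 problem is given by a numbered machine -/
theorem exists_index2 {B : Orc} (S : TFNP2 B) : ∃ (i : ℕ) (k n : Polynomial ℕ), ∀ A x y,
    Usol (join A B) i (k.eval x.length) (n.eval x.length) x y ↔ S.IsSol A x y := by
  obtain ⟨c, q, hc⟩ := S.polyTime
  refine ⟨sval (rpn (code c)), Polynomial.C (size (code c) + 10) * q.comp (Polynomial.X + S.p) +
    10, S.p, fun A x y => ?_⟩
  unfold Usol TFNP2.IsSol
  rw [mach_sval]
  refine and_congr_right fun hy => ?_
  obtain ⟨t, ht, he⟩ := hc A x y
  rw [U_eq he]
  · rw [snd_node, bit_ne_leaf]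
  · simp only [Polynomial.eval_add, Polynomial.eval_mul, Polynomial.eval_C,
      Polynomial.eval_comp, Polynomial.eval_X, Polynomial.eval_ofNat]
    have h1 : q.eval (x.length + y.length) ≤ q.eval (x.length + S.p.eval x.length) :=
      poly_mono _ (by omega)
    exact Nat.add_le_add_right (Nat.mul_le_mul_left _ (ht.trans h1)) _

theorem TB_complete (S : TFNP2 (tal slf2)) : S.Reduces TB := by
  obtain ⟨i, k, n, hS⟩ := exists_index2 S
  obtain ⟨Pk, hk1, hk2⟩ := exists_polyT k
  obtain ⟨Pn, hn1, hn2⟩ := exists_polyT n
  obtain ⟨cf, qf, hf⟩ : FP zero (fun v => insT (Pk v) (Pn v) (num i) v) :=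
    FP.insT' (hk2 _ _ FP.id') (hn2 _ _ FP.id') (FP.const' _) FP.id'
  obtain ⟨cF, qF, hF⟩ : UFP (fun O v => bit (O (dec (node leaf (snd v))))) :=
    UFP.query' (UFP.node' UFP.leaf' (UFP.snd' UFP.id'))
  refine ⟨qf.comp (4 * Polynomial.X + 1) + qF.comp (4 * Polynomial.X + 3) +
    (4 * Polynomial.X + 10), strip cf, cF, Prog.snd, fun A x => ?_⟩
  have hx := size_enc_le x
  refine ⟨A, ins (k.eval x.length) (n.eval x.length) i x, ?_, fun w => ?_, fun y hy => ?_⟩
  · obtain ⟨t, ht, he⟩ := hf (enc x)
    simp only [insT_eq, hk1, hn1, len_num, len_enc] at he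
    refine ⟨t, ?_, strip_eval _ he⟩
    have h1 : qf.eval (size (enc x)) ≤ qf.eval (4 * x.length + 1) := poly_mono _ hx
    simp only [Polynomial.eval_add, Polynomial.eval_comp, Polynomial.eval_mul,
      Polynomial.eval_X, Polynomial.eval_one, Polynomial.eval_ofNat]
    omega
  · obtain ⟨t, ht, he⟩ := hF (join A (tal slf2)) (node (enc x) (enc w))
    have e : join A (tal slf2) (dec (node leaf (snd (node (enc x) (enc w))))) = A w := by
      rw [snd_node]
      show join A (tal slf2) (decide (leaf ≠ leaf) :: dec (enc w)) = A w
      rw [dec_enc]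
      simp [join]
    simp only [e] at he
    refine ⟨t, ?_, he⟩
    have hw := size_enc_le w
    have h1 : qF.eval (size (node (enc x) (enc w))) ≤ qF.eval (4 * (x.length + w.length) + 3) :=
      poly_mono _ (by simp only [size]; omega)
    simp only [Polynomial.eval_add, Polynomial.eval_comp, Polynomial.eval_mul,
      Polynomial.eval_X, Polynomial.eval_one, Polynomial.eval_ofNat]
    omega
  · refine ⟨y, ⟨_, ?_, Eval.snd _⟩, ?_⟩
    · have hw := size_enc_le y
      simp only [Polynomial.eval_add, Polynomial.eval_comp, Polynomial.eval_mul,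
        Polynomial.eval_X, Polynomial.eval_one, Polynomial.eval_ofNat, size]
      omega
    · have h1 : RS2 A (ins (k.eval x.length) (n.eval x.length) i x) y := by
        have := hy.2
        simpa [TB] using this
      unfold RS2 at h1
      rw [zK_ins, zN_ins, zi_ins, zx_ins, slf2_spec] at h1
      apply (hS A x y).mp
      apply h1
      intro A' x' hx'
      obtain ⟨y', hy'⟩ := S.total A' x'
      refine ⟨y', ?_⟩
      have := (hS A' x' y').mpr hy'
      rw [hx'] at this
      exact this

/-- **Relative to a suitable base oracle there is a complete type-2 problem.** -/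
theorem exists_base : ∃ (B : Orc) (T : TFNP2 B), ∀ S : TFNP2 B, S.Reduces T :=
  ⟨tal slf2, TB, TB_complete⟩

end Pool.Agent.H93.BB
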