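import Pool.Agent.H88.RO.Model

set_option autoImplicit false

/-!
# Type-2 (black-box) total NP search problems

Beame, Cook, Edmonds, Impagliazzo, Pitassi (1998).  The instances of a type-2 problem are pairs
`(A, x)` of an oracle `A` and a string `x`; it is total if *every* instance has a solution.
The computation model (`Prog`, `Eval`, `join`) is the one of `Pool.Agent.H88.RO.Model`.
-/

namespace Pool.Agent.H93.BB

open Pool.Agent.H88.RO Pool.Agent.H88.RO.Tr

/-- An oracle. -/
abbrev Orc : Type := List Bool → Bool

/-- The trivial oracle. -/
def zero : Orc := fun _ => false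

/-- A type-2 total NP search problem relative to the base oracle `B` (the unrelativized case is
`B = zero`): a relation `R A x y` decided by one polynomial time program for all oracles `A`,
such that for every oracle `A` and every string `x` there is a short `y` with `R A x y`. -/
structure TFNP2 (B : Orc) where
  /-- the relation: `R A x y = true` says that `y` solves `(A, x)`, if `y` is short enough -/
  R : Orc → List Bool → List Bool → Bool
  /-- the polynomial bounding the length of solutions -/
  p : Polynomial ℕ
  polyTime : ∃ (c : Prog) (q : Polynomial ℕ), ∀ (A : Orc) (x y : List Bool),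
    ∃ t ≤ q.eval (x.length + y.length),
      Eval (join A B) c (node (enc x) (enc y)) (bit (R A x y)) t
  total : ∀ (A : Orc) (x : List Bool), ∃ y : List Bool,
    y.length ≤ p.eval x.length ∧ R A x y = true

variable {B : Orc}

/-- `y` is a solution of the instance `(A, x)` of `S`. -/
def TFNP2.IsSol (S : TFNP2 B) (A : Orc) (x y : List Bool) : Prop :=
  y.length ≤ S.p.eval x.length ∧ S.R A x y = true

/-- What it means that the programs `cf`, `cF`, `cg`, running in time `τ`, reduce the instance
`(A, x)` of `S` to the instance `(A', s)` of `T`: `cf` computes `s` from `x`, `cF` computes the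
bit `A' w` from `x` and `w`, and `cg` turns `x` and any `T`-solution of `(A', s)` into an
`S`-solution of `(A, x)`; all three have access to the oracle `A`. -/
def RedAt (τ : ℕ → ℕ) (S T : TFNP2 B) (cf cF cg : Prog) (A : Orc) (x : List Bool)
    (A' : Orc) (s : List Bool) : Prop :=
  (∃ t ≤ τ x.length, Eval (join A B) cf (enc x) (enc s) t) ∧
  (∀ w : List Bool, ∃ t ≤ τ (x.length + w.length),
    Eval (join A B) cF (node (enc x) (enc w)) (bit (A' w)) t) ∧
  ∀ y, T.IsSol A' s y → ∃ z, (∃ t ≤ τ (x.length + y.length),
    Eval (join A B) cg (node (enc x) (enc y)) (enc z) t) ∧ S.IsSol A x z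

/-- Type-2 many-one reducibility by programs running in time `τ`. -/
def TFNP2.ReducesWithin (τ : ℕ → ℕ) (S T : TFNP2 B) : Prop :=
  ∃ cf cF cg : Prog, ∀ (A : Orc) (x : List Bool), ∃ (A' : Orc) (s : List Bool),
    RedAt τ S T cf cF cg A x A' s

/-- Polynomial time type-2 many-one reducibility. -/
def TFNP2.Reduces (S T : TFNP2 B) : Prop :=
  ∃ q : Polynomial ℕ, S.ReducesWithin (fun n => q.eval n) T

/-- The quasi-polynomial time bounds `2 ^ (|n| ^ k + k)`, where `|n|` is the number of binary
digits of `n`. -/
def qp (k n : ℕ) : ℕ := 2 ^ (Nat.size n ^ k + k)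

end Pool.Agent.H93.BB
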