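import Pool.Agent.H93.BB.Defs

set_option autoImplicit false

/-!
# Estimates for the clocks

`qp k n = 2 ^ (Nat.size n ^ k + k)`.

Proof plan.  Every polynomial is bounded by `(n + 2) ^ D`.

`clock_poly`: if `l ≤ 2 ^ e` then `Nat.size l ≤ e + 1`, so `qp k l ≤ 2 ^ ((e + 1) ^ k + k)`,
`l + qp k l + 2 ≤ 2 ^ (e + (e + 1) ^ k + k + 2)`, `P.eval (l + qp k l) ≤ 2 ^ (D * (e + (e + 1) ^ k
+ k + 2))`, whose number of binary digits is at most `D * (...) + 1`; so everything is at most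
`2 ^ G(e)` for a polynomial `G` (use `a ≤ 2 ^ a`, `x + y + z ≤ 2 ^ (log x + log y + log z + 2)`).

`clock_one`: `l ≤ 5 (m+2)^d + 5 + 2^m ≤ 2 ^ ((m + 2) * (d + 4))`, as `(m + 2) ^ d ≤
2 ^ ((m + 2) * d)`; with `G.eval n ≤ (n + 2) ^ D'` one needs `((m + 2) * (d + 5)) ^ D' ≤ (m + 2) ^ d`,
which follows from `(d + 5) ^ D' ≤ 2 ^ (d - D') ≤ (m + 2) ^ (d - D')` for large `d`.

`clock_two`: `l ≤ m + b < 2 ^ Nat.size (m + b)`, and `(Nat.size (m + b) + 2) ^ D' ≤ m` for large `m`.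
-/

namespace Pool.Agent.H93.BB

private theorem peval_mono (P : Polynomial ℕ) {m n : ℕ} (h : m ≤ n) : P.eval m ≤ P.eval n := by
  induction P using Polynomial.induction_on' with
  | add p q hp hq => simp only [Polynomial.eval_add]; omega
  | monomial k a =>
    simp only [Polynomial.eval_monomial]
    exact Nat.mul_le_mul_left _ (Nat.pow_le_pow_left h k)

/-- every polynomial is bounded by `(n + 2) ^ D` -/
private theorem exists_D (P : Polynomial ℕ) : ∃ D : ℕ, ∀ n, P.eval n ≤ (n + 2) ^ D := by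
  induction P using Polynomial.induction_on' with
  | add p q hp hq =>
    obtain ⟨D1, h1⟩ := hp
    obtain ⟨D2, h2⟩ := hq
    refine ⟨D1 + D2 + 1, fun n => ?_⟩
    have e1 := h1 n
    have e2 := h2 n
    have p1 : 1 ≤ (n + 2) ^ D1 := Nat.one_le_pow _ _ (by omega)
    have p2 : 1 ≤ (n + 2) ^ D2 := Nat.one_le_pow _ _ (by omega)
    rw [Polynomial.eval_add, pow_add, pow_add, pow_one]
    calc p.eval n + q.eval n ≤ (n + 2) ^ D1 + (n + 2) ^ D2 := Nat.add_le_add e1 e2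
      _ ≤ (n + 2) ^ D1 * (n + 2) ^ D2 * 2 := by nlinarith
      _ ≤ (n + 2) ^ D1 * (n + 2) ^ D2 * (n + 2) := Nat.mul_le_mul_left _ (by omega)
  | monomial k a =>
    refine ⟨a + k, fun n => ?_⟩
    rw [Polynomial.eval_monomial, pow_add]
    have h1 : a ≤ (n + 2) ^ a := (Nat.lt_pow_self (by omega : 1 < n + 2)).le
    have h2 : n ^ k ≤ (n + 2) ^ k := Nat.pow_le_pow_left (by omega) k
    exact Nat.mul_le_mul h1 h2

private theorem size_le_of {l e : ℕ} (h : l ≤ 2 ^ e) : Nat.size l ≤ e + 1 := by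
  rw [Nat.size_le]
  exact lt_of_le_of_lt h (Nat.pow_lt_pow_right (by omega) (by omega))

private theorem qp_le {k l e : ℕ} (h : l ≤ 2 ^ e) : qp k l ≤ 2 ^ ((e + 1) ^ k + k) := by
  rw [qp]
  apply Nat.pow_le_pow_right (by omega)
  have := Nat.pow_le_pow_left (size_le_of h) k
  omega

private theorem le_two_pow_self (a : ℕ) : a ≤ 2 ^ a := Nat.lt_two_pow_self.le

theorem clock_poly (k a : ℕ) (P : Polynomial ℕ) : ∃ G : Polynomial ℕ, ∀ e l : ℕ, l ≤ 2 ^ e →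
    a * qp k (P.eval (l + qp k l)) + a + P.eval l ≤ 2 ^ (G.eval e) := by
  obtain ⟨D, hD⟩ := exists_D P
  set sX : Polynomial ℕ := Polynomial.X + (Polynomial.X + 1) ^ k + Polynomial.C k + 2 with hsX
  set vX : Polynomial ℕ := sX * Polynomial.C D with hvX
  refine ⟨Polynomial.C a + ((vX + 1) ^ k + Polynomial.C k) + vX + 2, fun e l hl => ?_⟩
  set s : ℕ := e + (e + 1) ^ k + k + 2 with hs
  have hse : sX.eval e = s := by
    simp [hsX, hs]
  have hve : vX.eval e = s * D := by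
    rw [hvX, Polynomial.eval_mul, Polynomial.eval_C, hse]
  have hG : (Polynomial.C a + ((vX + 1) ^ k + Polynomial.C k) + vX + 2 : Polynomial ℕ).eval e =
      a + ((s * D + 1) ^ k + k) + s * D + 2 := by
    simp [hve]
  rw [hG]
  have h1 : qp k l ≤ 2 ^ ((e + 1) ^ k + k) := qp_le hl
  have h2 : l + qp k l + 2 ≤ 2 ^ s := by
    have e1 : (2 : ℕ) ^ s = 2 ^ e * 2 ^ ((e + 1) ^ k + k) * 4 := by
      rw [hs, show e + (e + 1) ^ k + k + 2 = e + ((e + 1) ^ k + k) + 2 by ring, pow_add, pow_add]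
      norm_num
    have p1 : 1 ≤ 2 ^ e := Nat.one_le_two_pow
    have p2 : 1 ≤ 2 ^ ((e + 1) ^ k + k) := Nat.one_le_two_pow
    rw [e1]
    nlinarith
  have h3 : P.eval (l + qp k l) ≤ 2 ^ (s * D) := by
    calc P.eval (l + qp k l) ≤ (l + qp k l + 2) ^ D := hD _
      _ ≤ (2 ^ s) ^ D := Nat.pow_le_pow_left h2 D
      _ = 2 ^ (s * D) := by rw [pow_mul]
  have h4 : P.eval l ≤ 2 ^ (s * D) := (peval_mono P (by omega)).trans h3
  have h5 : qp k (P.eval (l + qp k l)) ≤ 2 ^ ((s * D + 1) ^ k + k) := qp_le h3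
  set u : ℕ := (s * D + 1) ^ k + k with hu
  set v : ℕ := s * D with hv
  have e2 : (2 : ℕ) ^ (a + u + v + 2) = 2 ^ a * 2 ^ u * 2 ^ v * 4 := by
    rw [pow_add, pow_add, pow_add]
    norm_num
  rw [e2]
  have p1 : 1 ≤ 2 ^ a := Nat.one_le_two_pow
  have p2 : 1 ≤ 2 ^ u := Nat.one_le_two_pow
  have p3 : 1 ≤ 2 ^ v := Nat.one_le_two_pow
  have ha := le_two_pow_self a
  have h6 : a * qp k (P.eval (l + qp k l)) ≤ 2 ^ a * 2 ^ u := Nat.mul_le_mul ha h5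
  have q1 : 2 ^ a * 2 ^ u ≤ 2 ^ a * 2 ^ u * 2 ^ v := Nat.le_mul_of_pos_right _ p3
  have q2 : 2 ^ a ≤ 2 ^ a * 2 ^ u * 2 ^ v := by
    rw [mul_assoc]
    exact Nat.le_mul_of_pos_right _ (Nat.mul_pos p2 p3)
  have q3 : 2 ^ v ≤ 2 ^ a * 2 ^ u * 2 ^ v := Nat.le_mul_of_pos_left _ (Nat.mul_pos p1 p2)
  omega

/-- exponentials beat powers -/
private theorem exp_beats (D C : ℕ) : ∃ n0 : ℕ, ∀ n ≥ n0, n ^ D * C ≤ 2 ^ n := by
  have h := tendsto_pow_const_div_const_pow_of_one_lt D (r := (2 : ℝ)) (by norm_num)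
  have h1 : ∀ᶠ n : ℕ in Filter.atTop, (n : ℝ) ^ D / 2 ^ n < 1 / ((C : ℝ) + 1) :=
    h.eventually_lt_const (by positivity)
  obtain ⟨n0, hn0⟩ := Filter.eventually_atTop.1 h1
  refine ⟨n0, fun n hn => ?_⟩
  have h2 := hn0 n hn
  rw [div_lt_div_iff₀ (by positivity) (by positivity)] at h2
  have h3 : ((n ^ D * C : ℕ) : ℝ) ≤ ((2 ^ n : ℕ) : ℝ) := by
    push_cast
    have h4 : (0 : ℝ) ≤ (n : ℝ) ^ D := by positivity
    nlinarith
  exact_mod_cast h3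

theorem clock_one (k a : ℕ) (P : Polynomial ℕ) : ∃ d0 : ℕ, ∀ d ≥ d0, ∀ m l : ℕ,
    l ≤ 5 * (m + 2) ^ d + 5 + 2 ^ m →
      a * qp k (P.eval (l + qp k l)) + a + P.eval l ≤ 2 ^ ((m + 2) ^ d) := by
  obtain ⟨G, hG⟩ := clock_poly k a P
  obtain ⟨D, hD⟩ := exists_D G
  obtain ⟨n0, hn0⟩ := exp_beats D (2 ^ (D + 5))
  refine ⟨n0 + D, fun d hd m l hl => ?_⟩
  have h1 : l ≤ 2 ^ ((m + 2) * (d + 4)) := by
    have h2 : (m + 2) ^ d ≤ 2 ^ ((m + 2) * d) := by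
      rw [pow_mul]
      exact Nat.pow_le_pow_left (le_two_pow_self _) d
    have e1 : (2 : ℕ) ^ ((m + 2) * d + m + 4) = 2 ^ ((m + 2) * d) * 2 ^ m * 16 := by
      rw [pow_add, pow_add]
      norm_num
    have p1 : 1 ≤ 2 ^ ((m + 2) * d) := Nat.one_le_two_pow
    have p2 : 1 ≤ 2 ^ m := Nat.one_le_two_pow
    have q1 : 2 ^ ((m + 2) * d) ≤ 2 ^ ((m + 2) * d) * 2 ^ m := Nat.le_mul_of_pos_right _ p2
    have q2 : 2 ^ m ≤ 2 ^ ((m + 2) * d) * 2 ^ m := Nat.le_mul_of_pos_left _ p1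
    have h3 : l ≤ 2 ^ ((m + 2) * d + m + 4) := by
      rw [e1]
      omega
    refine h3.trans (Nat.pow_le_pow_right (by omega) ?_)
    have : (m + 2) * (d + 4) = (m + 2) * d + (m + 2) * 4 := by ring
    omega
  refine (hG _ l h1).trans (Nat.pow_le_pow_right (by omega) ?_)
  refine (hD _).trans ?_
  have h4 : (m + 2) * (d + 4) + 2 ≤ (m + 2) * (d + 5) := by
    have : (m + 2) * (d + 5) = (m + 2) * (d + 4) + (m + 2) := by ring
    omega
  have h5 : (d + 5) ^ D ≤ 2 ^ (d - D) := by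
    have h6 := hn0 (d + 5) (by omega)
    have e2 : (2 : ℕ) ^ (d + 5) = 2 ^ (d - D) * 2 ^ (D + 5) := by
      rw [← pow_add]
      congr 1
      omega
    rw [e2] at h6
    exact Nat.le_of_mul_le_mul_right h6 (by positivity)
  calc ((m + 2) * (d + 4) + 2) ^ D ≤ ((m + 2) * (d + 5)) ^ D := Nat.pow_le_pow_left h4 D
    _ = (m + 2) ^ D * (d + 5) ^ D := mul_pow _ _ _
    _ ≤ (m + 2) ^ D * 2 ^ (d - D) := Nat.mul_le_mul_left _ h5
    _ ≤ (m + 2) ^ D * (m + 2) ^ (d - D) :=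
        Nat.mul_le_mul_left _ (Nat.pow_le_pow_left (by omega) _)
    _ = (m + 2) ^ d := by
        rw [← pow_add]
        congr 1
        omega

theorem clock_two (k a b : ℕ) (P : Polynomial ℕ) : ∃ m0 : ℕ, ∀ m ≥ m0, ∀ l ≤ m + b,
    a * qp k (P.eval (l + qp k l)) + a + P.eval l ≤ 2 ^ m := by
  obtain ⟨G, hG⟩ := clock_poly k a P
  obtain ⟨D, hD⟩ := exists_D G
  obtain ⟨n0, hn0⟩ := exp_beats D 16
  refine ⟨b + 2 ^ n0, fun m hm l hl => ?_⟩
  have h1 : l ≤ 2 ^ Nat.size (m + b) := hl.trans (Nat.lt_size_self (m + b)).le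
  refine (hG _ l h1).trans (Nat.pow_le_pow_right (by omega) ?_)
  refine (hD _).trans ?_
  set s := Nat.size (m + b) with hs
  have h2 : n0 < s := by
    rw [hs, Nat.lt_size]
    omega
  have h3 : 2 ^ (s - 1) ≤ m + b := by
    rw [← Nat.lt_size]
    omega
  have h4 := hn0 (s + 2) (by omega)
  have e1 : (2 : ℕ) ^ (s + 2) = 2 ^ (s - 1) * 8 := by
    rw [show s + 2 = (s - 1) + 3 by omega, pow_add]
    norm_num
  rw [e1] at h4
  have h5 : (s + 2) ^ D * 16 ≤ (m + b) * 8 := h4.trans (Nat.mul_le_mul_right 8 h3)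
  have h6 : b ≤ m := (Nat.le_add_right b (2 ^ n0)).trans hm
  generalize (s + 2) ^ D = x at h5 ⊢
  omega

end Pool.Agent.H93.BB
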