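import Pool.Agent.H93.BB.RefFP

set_option autoImplicit false

/-!
# Instances: strings coding several unary numbers
-/

namespace Pool.Agent.H93.BB

open Pool.Agent.H88.RO Pool.Agent.H88.RO.Tr Pool.Agent.H65.TS

/-- `1^a 0 1^b 0 ... w` -/
def uns : List ℕ → List Bool → List Bool
  | [], w => w
  | a :: l, w => List.replicate a true ++ false :: uns l w

theorem uns_length (l : List ℕ) (w : List Bool) :
    (uns l w).length = l.sum + l.length + w.length := by
  induction l with
  | nil => simp [uns]
  | cons a l ih => simp [uns, ih]; ring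

/-- the string after the first `k` numbers -/
def rs : ℕ → List Bool → List Bool
  | 0, z => z
  | k + 1, z => (prs (rs k z)).2

/-- the number at position `k` -/
def fd (k : ℕ) (z : List Bool) : ℕ := (prs (rs k z)).1

theorem rs_uns (l : List ℕ) (w : List Bool) (k : ℕ) (hk : k ≤ l.length) :
    rs k (uns l w) = uns (l.drop k) w := by
  induction k with
  | zero => simp [rs]
  | succ k ih =>
    rw [rs, ih (by omega), List.drop_eq_getElem_cons (by omega : k < l.length), uns, prs_ones]

theorem fd_uns (l : List ℕ) (w : List Bool) (k : ℕ) (hk : k < l.length) :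
    fd k (uns l w) = l[k] := by
  rw [fd, rs_uns l w k (by omega), List.drop_eq_getElem_cons hk, uns, prs_ones]

theorem rs_le (z : List Bool) (k : ℕ) : (rs k z).length ≤ z.length := by
  induction k with
  | zero => exact le_rfl
  | succ k ih =>
    have := prs_le (rs k z)
    rw [rs]; omega

theorem fd_rs_le (z : List Bool) (k : ℕ) : fd k z + (rs (k + 1) z).length ≤ (rs k z).length :=
  prs_le (rs k z)

/-! ### programs -/

/-- program for `rs` -/
def rsT : ℕ → Tr → Tr
  | 0, v => v
  | k + 1, v => fst (snd (parseT (rsT k v)))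

/-- program for `fd` -/
def fdT (k : ℕ) (v : Tr) : Tr := fst (parseT (rsT k v))

@[simp] theorem rsT_enc (k : ℕ) (z : List Bool) : rsT k (enc z) = enc (rs k z) := by
  induction k with
  | zero => rfl
  | succ k ih => rw [rsT, ih, snd_parseT, rs]

@[simp] theorem fdT_enc (k : ℕ) (z : List Bool) : fdT k (enc z) = num (fd k z) := by
  rw [fdT, rsT_enc, fst_parseT, fd]

theorem FP.rsT' {O : List Bool → Bool} (k : ℕ) {F : Tr → Tr} (hF : FP O F) :
    FP O (fun v => rsT k (F v)) := by
  induction k with
  | zero => exact hF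
  | succ k ih => exact FP.fst' (FP.snd' (FP.parseT' ih))

theorem FP.fdT' {O : List Bool → Bool} (k : ℕ) {F : Tr → Tr} (hF : FP O F) :
    FP O (fun v => fdT k (F v)) := FP.fst' (FP.parseT' (FP.rsT' k hF))

/-- program for `uns` -/
def unsT : List Tr → Tr → Tr
  | [], w => w
  | a :: l, w => onesPre a (node leaf (unsT l w))

theorem unsT_eq (l : List Tr) (w : List Bool) : unsT l (enc w) = enc (uns (l.map len) w) := by
  induction l with
  | nil => rfl
  | cons a l ih =>
    have e1 : ∀ v : List Bool, node leaf (enc v) = enc (false :: v) := fun v => rfl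
    rw [unsT, ih, e1, onesPre_enc]
    rfl

theorem FP.uns2' {O : List Bool → Bool} {F G W : Tr → Tr} (hF : FP O F) (hG : FP O G)
    (hW : FP O W) : FP O (fun v => unsT [F v, G v] (W v)) :=
  FP.onesPre' hF (FP.node' FP.leaf' (FP.onesPre' hG (FP.node' FP.leaf' hW)))

theorem FP.uns5' {O : List Bool → Bool} {F G H J L W : Tr → Tr} (hF : FP O F) (hG : FP O G)
    (hH : FP O H) (hJ : FP O J) (hL : FP O L) (hW : FP O W) :
    FP O (fun v => unsT [F v, G v, H v, J v, L v] (W v)) :=
  FP.onesPre' hF (FP.node' FP.leaf' (FP.onesPre' hG (FP.node' FP.leaf' (FP.onesPre' hH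
    (FP.node' FP.leaf' (FP.onesPre' hJ (FP.node' FP.leaf' (FP.onesPre' hL
      (FP.node' FP.leaf' hW)))))))))

/-- a string of ones -/
theorem onesPre_leaf (a : Tr) : onesPre a leaf = enc (List.replicate (len a) true) := by
  have := onesPre_enc a []
  simpa [enc] using this

end Pool.Agent.H93.BB
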