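import Pool.Agent.H93.BB.UFP

set_option autoImplicit false

/-!
# Uniform polynomial time with access to the join of two oracles
-/

namespace Pool.Agent.H93.BB

open Pool.Agent.H88.RO Pool.Agent.H88.RO.Tr Pool.Agent.H65.TS

/-! ### uniform polynomial time with access to `join A B` -/

/-- `F A v` is computable in polynomial time by one program with the oracle `join A B` -/
def JFP (B : Orc) (F : Orc → Tr → Tr) : Prop :=
  ∃ (c : Prog) (q : Polynomial ℕ), ∀ (A : Orc) (v : Tr), ∃ t ≤ q.eval (size v),
    Eval (join A B) c v (F A v) t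

namespace JFP

variable {B : Orc}

theorem of_UFP {F : Orc → Tr → Tr} (h : UFP F) : JFP B (fun A v => F (join A B) v) := by
  obtain ⟨c, q, hc⟩ := h
  exact ⟨c, q, fun A v => hc _ v⟩

theorem pure {F : Tr → Tr} (h : FP zero F) : JFP B (fun _ v => F v) := of_UFP (UFP.pure h)

theorem size_bound {F : Orc → Tr → Tr} (h : JFP B F) :
    ∃ q : Polynomial ℕ, ∀ A v, size (F A v) ≤ q.eval (size v) := by
  obtain ⟨c, q, hq⟩ := h
  refine ⟨2 * q, fun A v => ?_⟩
  obtain ⟨t, ht, he⟩ := hq A v
  have := he.size_le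
  simp only [Polynomial.eval_mul, Polynomial.eval_ofNat]
  omega

theorem comp' {F G : Orc → Tr → Tr} (hF : JFP B F) (hG : JFP B G) :
    JFP B (fun A v => F A (G A v)) := by
  obtain ⟨s, hs⟩ := hG.size_bound
  obtain ⟨cF, qF, hF⟩ := hF
  obtain ⟨cG, qG, hG⟩ := hG
  refine ⟨Prog.comp cF cG, qG + qF.comp s + Polynomial.X + 1, fun A v => ?_⟩
  obtain ⟨t1, ht1, he1⟩ := hG A v
  obtain ⟨t2, ht2, he2⟩ := hF A (G A v)
  refine ⟨t1 + t2 + size v + 1, ?_, Eval.comp he1 he2⟩
  simp only [Polynomial.eval_add, Polynomial.eval_comp, Polynomial.eval_X, Polynomial.eval_one]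
  have := poly_mono qF (hs A v)
  omega

theorem node' {F G : Orc → Tr → Tr} (hF : JFP B F) (hG : JFP B G) :
    JFP B (fun A v => node (F A v) (G A v)) := by
  obtain ⟨cF, qF, hF⟩ := hF
  obtain ⟨cG, qG, hG⟩ := hG
  refine ⟨Prog.pair cF cG, qF + qG + Polynomial.X + 1, fun A v => ?_⟩
  obtain ⟨t1, ht1, he1⟩ := hF A v
  obtain ⟨t2, ht2, he2⟩ := hG A v
  refine ⟨t1 + t2 + size v + 1, ?_, Eval.pair he1 he2⟩
  simp only [Polynomial.eval_add, Polynomial.eval_X, Polynomial.eval_one]
  omega

theorem cs' {p F G : Orc → Tr → Tr} (hp : JFP B p) (hF : JFP B F) (hG : JFP B G) :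
    JFP B (fun A v => cs (p A v) (F A v) (G A v)) := by
  have key : JFP B (fun A v => cs (fst v) (F A (snd v)) (G A (snd v))) := by
    obtain ⟨cF, qF, hF⟩ := hF
    obtain ⟨cG, qG, hG⟩ := hG
    refine ⟨Prog.cond cF cG, qF + qG + Polynomial.X + 1, fun A v => ?_⟩
    by_cases hv : fst v = leaf
    · obtain ⟨t1, ht1, he1⟩ := hF A (snd v)
      refine ⟨t1 + size v + 1, ?_, ?_⟩
      · simp only [Polynomial.eval_add, Polynomial.eval_X, Polynomial.eval_one]
        have := poly_mono qF (size_snd_le v)
        omega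
      · show Eval (join A B) _ v (cs (fst v) (F A (snd v)) (G A (snd v))) _
        rw [cs_pos _ _ hv]
        exact Eval.condNil hv he1
    · obtain ⟨t1, ht1, he1⟩ := hG A (snd v)
      refine ⟨t1 + size v + 1, ?_, ?_⟩
      · simp only [Polynomial.eval_add, Polynomial.eval_X, Polynomial.eval_one]
        have := poly_mono qG (size_snd_le v)
        omega
      · show Eval (join A B) _ v (cs (fst v) (F A (snd v)) (G A (snd v))) _
        rw [cs_neg _ _ hv]
        exact Eval.condNode hv he1
  exact comp' (F := fun A v => cs (fst v) (F A (snd v)) (G A (snd v))) key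
    (node' hp (pure FP.id'))

/-- relations given by uniform programs, as functions on trees -/
theorem of_rel {R : Orc → List Bool → List Bool → Bool} {c : Prog} {q : Polynomial ℕ}
    (h : ∀ A x y, ∃ t ≤ q.eval (x.length + y.length),
      Eval (join A B) c (node (enc x) (enc y)) (bit (R A x y)) t) :
    JFP B (fun A v => bit (R A (dec (fst v)) (dec (snd v)))) := by
  obtain ⟨c', q', hc'⟩ := FP.node' (O := zero) (FP.norm' (FP.fst' FP.id'))
    (FP.norm' (FP.snd' FP.id'))
  refine ⟨Prog.comp c (strip c'), q' + q.comp (2 * Polynomial.X) + Polynomial.X + 1,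
    fun A v => ?_⟩
  obtain ⟨t1, ht1, he1⟩ := hc' v
  simp only [norm_eq] at he1
  obtain ⟨t2, ht2, he2⟩ := h A (dec (fst v)) (dec (snd v))
  refine ⟨_, ?_, Eval.comp (strip_eval _ he1) he2⟩
  simp only [Polynomial.eval_add, Polynomial.eval_comp, Polynomial.eval_X, Polynomial.eval_one,
    Polynomial.eval_mul, Polynomial.eval_ofNat]
  have h1 : (dec (fst v)).length + (dec (snd v)).length ≤ 2 * size v := by
    rw [length_dec, length_dec]
    have a1 := len_le_size (fst v)
    have a2 := len_le_size (snd v)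
    have a3 := size_fst_le v
    have a4 := size_snd_le v
    omega
  have h2 := poly_mono q h1
  omega

end JFP

/-- relations given by uniformly computable tests on trees -/
theorem exists_of_JFP {B : Orc} {F : Orc → Tr → Tr} (hF : JFP B F)
    {R : Orc → List Bool → List Bool → Bool}
    (h : ∀ A x y, F A (node (enc x) (enc y)) ≠ leaf ↔ R A x y = true) :
    ∃ (c : Prog) (q : Polynomial ℕ), ∀ (A : Orc) (x y : List Bool),
      ∃ t ≤ q.eval (x.length + y.length),
        Eval (join A B) c (node (enc x) (enc y)) (bit (R A x y)) t := by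
  obtain ⟨c, q, hc⟩ := JFP.cs' hF (JFP.pure FP.leaf') (JFP.pure (FP.const' tt))
  refine ⟨c, q.comp (4 * Polynomial.X + 3), fun A x y => ?_⟩
  obtain ⟨t, ht, he⟩ := hc A (node (enc x) (enc y))
  refine ⟨t, ht.trans ?_, ?_⟩
  · simp only [Polynomial.eval_comp, Polynomial.eval_add, Polynomial.eval_mul,
      Polynomial.eval_ofNat, Polynomial.eval_X]
    apply poly_mono
    have h1 := size_enc_le x
    have h2 := size_enc_le y
    simp only [size]
    omega
  · have : cs (F A (node (enc x) (enc y))) leaf tt = bit (R A x y) := by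
      by_cases h1 : R A x y = true
      · rw [cs_neg _ _ ((h A x y).mpr h1), h1]; rfl
      · rw [cs_pos _ _ (by
          by_contra hcon
          exact h1 ((h A x y).mp hcon))]
        rw [Bool.not_eq_true] at h1
        rw [h1]; rfl
    rw [← this]
    exact he

end Pool.Agent.H93.BB
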