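import Pool.Agent.H93.BB.UFP

set_option autoImplicit false

/-!
# Finite tables of oracles as binary tries

`trie t q` is the bit stored in the trie `t` at the string `q`.  A trie is `leaf` (no bit stored,
all bits are `false`) or `node flag (node t0 t1)`: `flag` is the bit at the empty string, `t0`, `t1`
are the tries of the strings beginning with `false`, `true`.
-/

namespace Pool.Agent.H93.BB

open Pool.Agent.H88.RO Pool.Agent.H88.RO.Tr Pool.Agent.H65.TS

/-- the oracle with the table `t` -/
def trie : Tr → List Bool → Bool
  | t, [] => decide (fst t ≠ leaf)
  | t, b :: q => trie (if b then snd (snd t) else fst (snd t)) q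

/-- one step of the table look-up; states are `node t q` -/
def lkstep2 (s : Tr) : Tr :=
  if snd s = leaf then s
  else if fst (snd s) = leaf then node (fst (snd (fst s))) (snd (snd s))
  else node (snd (snd (fst s))) (snd (snd s))

/-- table look-up -/
def lk2 (t q : Tr) : Tr := fst (fst (lkstep2^[len q] (node t q)))

/-- by induction on `q` (as `lk_ne_leaf` in `Pool.Agent.H65.TS.Par`) -/
theorem lk2_ne_leaf (t q : Tr) : lk2 t q ≠ leaf ↔ trie t (dec q) = true := by
  induction q generalizing t with
  | leaf => simp [lk2, len, dec, trie]
  | node a b _ ih =>
    rw [lk2, len, Function.iterate_succ_apply]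
    by_cases ha : a = leaf
    · subst ha
      have e : lkstep2 (node t (node leaf b)) = node (fst (snd t)) b := by simp [lkstep2]
      rw [e]
      have e2 : trie t (dec (node leaf b)) = trie (fst (snd t)) (dec b) := by
        simp [dec, trie]
      rw [e2]
      exact ih (fst (snd t))
    · have e : lkstep2 (node t (node a b)) = node (snd (snd t)) b := by simp [lkstep2, ha]
      rw [e]
      have e2 : trie t (dec (node a b)) = trie (snd (snd t)) (dec b) := by
        simp [dec, ha, trie]
      rw [e2]
      exact ih (snd (snd t))

private theorem size_lkstep2 (s : Tr) : size (lkstep2 s) ≤ size s := by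
  unfold lkstep2
  split_ifs with h1 h2
  · exact le_rfl
  · cases s with
    | leaf => simp at h1
    | node a b =>
      have h3 := size_snd_le a
      have h4 := size_fst_le (snd a)
      cases b with
      | leaf => simp at h1
      | node c d => simp only [fst_node, snd_node, size]; omega
  · cases s with
    | leaf => simp at h1
    | node a b =>
      have h3 := size_snd_le a
      have h4 := size_snd_le (snd a)
      cases b with
      | leaf => simp at h1
      | node c d => simp only [fst_node, snd_node, size]; omega

/-- as `FP.lk'` in `Pool.Agent.H65.TS.Par` -/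
theorem FP.lk2' {O : List Bool → Bool} {F G : Tr → Tr} (hF : FP O F) (hG : FP O G) :
    FP O (fun v => lk2 (F v) (G v)) := by
  have hd : FP O lkstep2 := by
    unfold lkstep2
    (repeat (first | with_reducible exact FP.id' | assumption | with_reducible apply FP.fst' | with_reducible apply FP.snd' | with_reducible apply FP.node' | with_reducible apply FP.query' | with_reducible apply FP.ite' | with_reducible exact FP.const' _))
  exact FP.fst' (FP.fst' (FP.iterate_add hd hG (FP.node' hF hG) 0
    (fun x => by have := size_lkstep2 x; omega)))

/-- as `FPO.tab` in `Pool.Agent.H65.TS.Par` -/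
theorem FPO.trie (B : List Bool → Bool) : FPO B (fun t => join (trie t) B) := by
  intro F G hF hG
  have h : (fun v => bit (join (BB.trie (F v)) B (dec (G v)))) = fun v =>
      cs (G v) leaf (cs (fst (G v)) (cs (lk2 (F v) (snd (G v))) leaf tt)
        (bit (B (dec (snd (G v)))))) := by
    funext v
    cases hq : G v with
    | leaf => simp [dec, join, bit]
    | node a b =>
      rw [cs_neg _ _ (by simp), fst_node, snd_node]
      by_cases ha : a = leaf
      · subst ha
        rw [cs_leaf]
        have e : join (BB.trie (F v)) B (dec (node leaf b)) = BB.trie (F v) (dec b) := by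
          simp [dec, join]
        rw [e]
        by_cases h1 : BB.trie (F v) (dec b) = true
        · rw [cs_neg _ _ ((lk2_ne_leaf _ _).mpr h1), h1]; rfl
        · rw [cs_pos _ _ (by
            by_contra hcon
            exact h1 ((lk2_ne_leaf _ _).mp hcon))]
          rw [Bool.not_eq_true] at h1
          rw [h1]; rfl
      · rw [cs_neg _ _ ha]
        have e : join (BB.trie (F v)) B (dec (node a b)) = B (dec b) := by
          simp [dec, ha, join]
        rw [e]
  rw [h]
  exact FP.cs' hG FP.leaf' (FP.cs' (FP.fst' hG) (FP.cs' (FP.lk2' hF (FP.snd' hG)) FP.leaf'
    (FP.const' _)) (FP.query' (FP.snd' hG)))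

/-- put a bit into the table -/
def ins2 : Tr → List Bool → Bool → Tr
  | t, [], b => node (bit b) (snd t)
  | t, false :: q, b => node (fst t) (node (ins2 (fst (snd t)) q b) (snd (snd t)))
  | t, true :: q, b => node (fst t) (node (fst (snd t)) (ins2 (snd (snd t)) q b))

theorem trie_ins2 (t : Tr) (q : List Bool) (b : Bool) (q' : List Bool) :
    trie (ins2 t q b) q' = if q' = q then b else trie t q' := by
  induction q generalizing t q' with
  | nil =>
    cases q' with
    | nil => cases b <;> simp [ins2, trie, bit]
    | cons c q'' => simp [ins2, trie]
  | cons c q ih =>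
    cases q' with
    | nil => cases c <;> simp [ins2, trie]
    | cons c' q'' =>
      cases c <;> cases c'
      · simp only [ins2, trie, snd_node, fst_node, Bool.false_eq_true, if_false, ih,
          List.cons.injEq, true_and]
      · simp [ins2, trie]
      · simp [ins2, trie]
      · simp only [ins2, trie, snd_node, if_true, ih, List.cons.injEq, true_and]

theorem size_ins2_le (t : Tr) (q : List Bool) (b : Bool) :
    size (ins2 t q b) ≤ size t + 6 * (q.length + 1) := by
  induction q generalizing t with
  | nil =>
    have h1 := size_snd_le t
    have h2 : size (bit b) ≤ 3 := by cases b <;> simp [bit, size]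
    simp only [ins2, size, List.length_nil]
    omega
  | cons c q ih =>
    have key : size (fst t) + size (fst (snd t)) + size (snd (snd t)) + 2 ≤ size t + 6 := by
      cases t with
      | leaf => simp [size]
      | node a t1 =>
        cases t1 with
        | leaf => simp [size]
        | node c d => simp only [fst_node, snd_node, size]; omega
    cases c
    · have h := ih (fst (snd t))
      simp only [ins2, size, List.length_cons]
      omega
    · have h := ih (snd (snd t))
      simp only [ins2, size, List.length_cons]
      omega

/-- every oracle agrees on a finite set with a small table -/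
theorem exists_trie (A : Orc) (Q : Finset (List Bool)) (l : ℕ) (hQ : ∀ q ∈ Q, q.length ≤ l) :
    ∃ t : Tr, size t ≤ 1 + Q.card * (6 * (l + 1)) ∧ ∀ q ∈ Q, trie t q = A q := by
  classical
  induction Q using Finset.induction_on with
  | empty => exact ⟨leaf, by simp [size], by simp⟩
  | insert q Q hq ih =>
    obtain ⟨t, ht1, ht2⟩ := ih (fun x hx => hQ x (Finset.mem_insert_of_mem hx))
    refine ⟨ins2 t q (A q), ?_, ?_⟩
    · have h1 := size_ins2_le t q (A q)
      have h2 := hQ q (Finset.mem_insert_self q Q)
      rw [Finset.card_insert_of_notMem hq]
      have h3 : 6 * (q.length + 1) ≤ 6 * (l + 1) := by omega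
      calc size (ins2 t q (A q)) ≤ size t + 6 * (q.length + 1) := h1
        _ ≤ (1 + Q.card * (6 * (l + 1))) + 6 * (l + 1) := Nat.add_le_add ht1 h3
        _ = 1 + (Q.card + 1) * (6 * (l + 1)) := by ring
    · intro x hx
      rw [trie_ins2]
      split_ifs with h
      · rw [h]
      · exact ht2 x ((Finset.mem_insert.1 hx).resolve_left h)

end Pool.Agent.H93.BB
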