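import Pool.Agent.H93.BB.Refute
import Pool.Agent.H93.BB.Trie

set_option autoImplicit false

/-!
# Programs whose oracle is given by a finite table or by a program
-/

namespace Pool.Agent.H93.BB

open Pool.Agent.H88.RO Pool.Agent.H88.RO.Tr Pool.Agent.H65.TS

/-! ### finite tables -/

theorem U_local_join (A : Orc) (c v : Tr) (K : ℕ) :
    ∃ Q : Finset (List Bool), Q.card ≤ K ∧ (∀ q ∈ Q, q.length ≤ K) ∧
      ∀ A' : Orc, (∀ q ∈ Q, A' q = A q) → U (join A' zero) c v K = U (join A zero) c v K := by
  classical
  obtain ⟨Q, h1, h2, h3⟩ := U_local (join A zero) c v K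
  refine ⟨Q.image List.tail, Finset.card_image_le.trans h1, ?_, fun A' hA' => ?_⟩
  · intro q hq
    rw [Finset.mem_image] at hq
    obtain ⟨q', hq', rfl⟩ := hq
    have := h2 q' hq'
    simp only [List.length_tail]
    omega
  · apply h3 (join A' zero)
    intro q hq
    cases q with
    | nil => rfl
    | cons b q =>
      cases b with
      | true => rfl
      | false =>
        show A' q = A q
        exact hA' q (Finset.mem_image.mpr ⟨_, hq, rfl⟩)

/-! ### programs with finite tables as oracles -/

/-- a unary program for a polynomial -/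
noncomputable def pT (p : Polynomial ℕ) : Tr → Tr := (exists_polyT p).choose

@[simp] theorem pT_eq (p : Polynomial ℕ) (v : Tr) : pT p v = num (p.eval (len v)) :=
  (exists_polyT p).choose_spec.1 v

theorem FP.pT' {O : List Bool → Bool} (p : Polynomial ℕ) {F : Tr → Tr} (hF : FP O F) :
    FP O (fun v => pT p (F v)) :=
  (exists_polyT p).choose_spec.2 O F hF

/-- the oracle `inner` with all parameters in a tree `node t (node φ (node x K))` -/
def nested (θ : Tr) : List Bool → Bool :=
  join (inner (trie (fst θ)) (fst (snd θ)) (fst (snd (snd θ))) (len (snd (snd (snd θ))))) zero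

theorem FP.UTrie {E F G H : Tr → Tr} (hE : FP zero E) (hF : FP zero F) (hG : FP zero G)
    (hH : FP zero H) :
    FP zero (fun v => U (join (trie (E v)) zero) (F v) (G v) (len (H v))) :=
  FP.UΩ (Ω := fun t => join (trie t) zero) (E := E) (F := F) (G := G) (H := H) (FPO.trie zero)
    hE hF hG hH

theorem FPO_nested : FPO zero nested := by
  intro F G hF hG
  have h : (fun v => bit (nested (F v) (dec (G v)))) = fun v =>
      cs (G v) leaf (cs (fst (G v))
        (cs (snd (U (join (trie (fst (F v))) zero) (fst (snd (F v)))
          (node (fst (snd (snd (F v)))) (norm (snd (G v)))) (len (snd (snd (snd (F v)))))))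
          leaf tt) leaf) := by
    funext v
    cases hq : G v with
    | leaf => simp [dec, nested, join, bit]
    | node a b =>
      rw [cs_neg _ _ (by simp), fst_node, snd_node]
      by_cases ha : a = leaf
      · subst ha
        rw [cs_leaf]
        have e : nested (F v) (dec (node leaf b)) =
            inner (trie (fst (F v))) (fst (snd (F v))) (fst (snd (snd (F v))))
              (len (snd (snd (snd (F v))))) (dec b) := by
          simp [dec, nested, join]
        rw [e, norm_eq]
        unfold inner
        by_cases h1 : snd (U (join (trie (fst (F v))) zero) (fst (snd (F v)))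
          (node (fst (snd (snd (F v)))) (enc (dec b))) (len (snd (snd (snd (F v)))))) = leaf
        · rw [cs_pos _ _ h1, h1]; simp [bit]
        · rw [cs_neg _ _ h1]; simp [h1, bit, tt]
      · rw [cs_neg _ _ ha]
        have e : nested (F v) (dec (node a b)) = false := by
          simp [dec, ha, nested, join, zero]
        rw [e]
        rfl
  rw [h]
  have h1 := FP.UTrie (FP.fst' hF) (FP.fst' (FP.snd' hF))
    (FP.node' (FP.fst' (FP.snd' (FP.snd' hF))) (FP.norm' (FP.snd' hG)))
    (FP.snd' (FP.snd' (FP.snd' hF)))
  exact FP.cs' hG FP.leaf' (FP.cs' (FP.fst' hG) (FP.cs' (FP.snd' h1) FP.leaf' (FP.const' _))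
    FP.leaf')

theorem FP.UNested {E F G H : Tr → Tr} (hE : FP zero E) (hF : FP zero F) (hG : FP zero G)
    (hH : FP zero H) :
    FP zero (fun v => U (nested (E v)) (F v) (G v) (len (H v))) :=
  FP.UΩ (Ω := nested) (E := E) (F := F) (G := G) (H := H) FPO_nested hE hF hG hH

end Pool.Agent.H93.BB
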