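import Pool.Agent.H93.BB.UFP

set_option autoImplicit false

/-!
# The clocked universal machine
-/

namespace Pool.Agent.H93.BB

open Pool.Agent.H88.RO Pool.Agent.H88.RO.Tr Pool.Agent.H65.TS

/-! ### the clocked universal machine -/

theorem cstep_leaf (O : Orc) (K : ℕ) : cstep O K leaf = leaf := by
  unfold cstep step
  split_ifs <;> simp_all

theorem cstep_iter_leaf (O : Orc) (K n : ℕ) : (cstep O K)^[n] leaf = leaf := by
  induction n with
  | zero => rfl
  | succ n ih => rw [Function.iterate_succ_apply, cstep_leaf, ih]

/-- a run that does not end in `leaf` is the same for all larger caps -/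
theorem cstep_iter_mono (O : Orc) {K K' : ℕ} (hK : K ≤ K') (n : ℕ) :
    ∀ s, (cstep O K)^[n] s ≠ leaf → (cstep O K')^[n] s = (cstep O K)^[n] s := by
  induction n with
  | zero => intro s _; rfl
  | succ n ih =>
    intro s hs
    rw [Function.iterate_succ_apply] at hs ⊢
    rw [Function.iterate_succ_apply]
    have h1 : cstep O K' s = cstep O K s := by
      by_cases hsz : size s ≤ K
      · unfold cstep
        rw [if_pos hsz, if_pos (hsz.trans hK)]
      · exfalso
        apply hs
        have : cstep O K s = leaf := by unfold cstep; rw [if_neg hsz]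
        rw [this, cstep_iter_leaf]
    rw [h1]
    exact ih _ hs

theorem cstep_iter_final (O : Orc) {K : ℕ} (n : ℕ) {s : Tr} (h1 : size s ≤ K) (h2 : fst s = leaf)
    (h3 : snd (snd s) = leaf) : (cstep O K)^[n] s = s := by
  induction n with
  | zero => rfl
  | succ n ih =>
    rw [Function.iterate_succ_apply]
    have : cstep O K s = s := by
      unfold cstep step
      rw [if_pos h1, if_pos h2, if_pos h3]
    rw [this, ih]

theorem U_mono (O : Orc) {c v w : Tr} {K K' : ℕ} (hK : K ≤ K') (h : U O c v K = node leaf w) :
    U O c v K' = node leaf w := by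
  unfold U out at h
  split_ifs at h with h1 h2 h3 h4
  have h5 : (cstep O K')^[K'] (node c (node v leaf)) = (cstep O K)^[K] (node c (node v leaf)) := by
    obtain ⟨m, rfl⟩ : ∃ m, K' = m + K := ⟨K' - K, by omega⟩
    rw [Function.iterate_add_apply, cstep_iter_mono O hK K _ h2]
    exact cstep_iter_final O m (h1.trans hK) h3 h4
  unfold U out
  rw [h5, if_pos (h1.trans hK), if_neg h2, if_pos h3, if_pos h4, h]

/-- a program that terminates has the same result for every sufficient clock -/
theorem U_of_eval {O : Orc} {c : Prog} {v w : Tr} {t K : ℕ} (h : Eval O c v w t)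
    (hU : U O (code c) v K ≠ leaf) : U O (code c) v K = node leaf w := by
  rcases U_cases (O := O) (code c) v K with h1 | ⟨w', h1⟩
  · exact absurd h1 hU
  · have h2 := U_mono O (K' := max K ((size (code c) + 10) * t + 10)) (le_max_left _ _) h1
    rw [U_eq h (le_max_right _ _)] at h2
    rw [h1, h2]

/-! ### the relation of a type-2 problem by its program -/

/-- a program for the relation of `T` -/
noncomputable def TFNP2.prog (T : TFNP2 zero) : Prog := T.polyTime.choose
/-- its time bound -/
noncomputable def TFNP2.time (T : TFNP2 zero) : Polynomial ℕ := T.polyTime.choose_spec.choose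

theorem TFNP2.prog_spec (T : TFNP2 zero) (A : Orc) (x y : List Bool) :
    ∃ t ≤ T.time.eval (x.length + y.length),
      Eval (join A zero) T.prog (node (enc x) (enc y)) (bit (T.R A x y)) t :=
  T.polyTime.choose_spec.choose_spec A x y

/-- a sufficient clock for the relation of `T` at an instance of length `n` -/
noncomputable def TFNP2.clk (T : TFNP2 zero) : Polynomial ℕ :=
  Polynomial.C (size (code T.prog) + 10) * T.time.comp (Polynomial.X + T.p) + 10

theorem TFNP2.isSol_iff (T : TFNP2 zero) (A : Orc) (s y : List Bool) :
    T.IsSol A s y ↔ y.length ≤ T.p.eval s.length ∧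
      snd (U (join A zero) (code T.prog) (node (enc s) (enc y)) (T.clk.eval s.length)) ≠ leaf := by
  unfold TFNP2.IsSol
  refine and_congr_right fun hy => ?_
  obtain ⟨t, ht, he⟩ := T.prog_spec A s y
  rw [U_eq he]
  · rw [snd_node, bit_ne_leaf]
  · simp only [TFNP2.clk, Polynomial.eval_add, Polynomial.eval_mul, Polynomial.eval_C,
      Polynomial.eval_comp, Polynomial.eval_X, Polynomial.eval_ofNat]
    have h1 : T.time.eval (s.length + y.length) ≤ T.time.eval (s.length + T.p.eval s.length) :=
      poly_mono _ (by omega)
    exact Nat.add_le_add_right (Nat.mul_le_mul_left _ (ht.trans h1)) _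

/-- the queries made by the relation of `T` -/
theorem TFNP2.isSol_local (T : TFNP2 zero) (A : Orc) (s y : List Bool) :
    ∃ Q : Finset (List Bool), Q.card ≤ T.clk.eval s.length ∧
      (∀ q ∈ Q, q.length ≤ T.clk.eval s.length) ∧
      ∀ A' : Orc, (∀ q ∈ Q, A' q = A q) → (T.IsSol A' s y ↔ T.IsSol A s y) := by
  classical
  obtain ⟨Q, h1, h2, h3⟩ := U_local (join A zero) (code T.prog) (node (enc s) (enc y))
    (T.clk.eval s.length)
  refine ⟨Q.image List.tail, Finset.card_image_le.trans h1, ?_, fun A' hA' => ?_⟩
  · intro q hq
    rw [Finset.mem_image] at hq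
    obtain ⟨q', hq', rfl⟩ := hq
    have := h2 q' hq'
    simp only [List.length_tail]
    omega
  · rw [T.isSol_iff, T.isSol_iff, h3 (join A' zero)]
    intro q hq
    cases q with
    | nil => rfl
    | cons b q =>
      cases b with
      | true => rfl
      | false =>
        show A' q = A q
        exact hA' q (Finset.mem_image.mpr ⟨_, hq, rfl⟩)

theorem TFNP2.isSol_congr (T : TFNP2 zero) {A A' : Orc} (s y : List Bool)
    (h : ∀ w : List Bool, w.length ≤ T.clk.eval s.length → A' w = A w) :
    T.IsSol A' s y ↔ T.IsSol A s y := by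
  obtain ⟨Q, _, h2, h3⟩ := T.isSol_local A s y
  exact h3 A' (fun q hq => h q (h2 q hq))

/-! ### oracles and tests given by programs -/

/-- the oracle computed by the program with code `φ` from `x`, relative to `A`, with clock `K` -/
def inner (A : Orc) (φ x : Tr) (K : ℕ) : Orc :=
  fun w => decide (snd (U (join A zero) φ (node x (enc w)) K) ≠ leaf)

/-- the program with code `e` accepts `(xS, u)`, relative to `A`, with clock `K2` -/
def Acc (A : Orc) (e xS : Tr) (K2 : ℕ) (u : List Bool) : Prop :=
  snd (U (join A zero) e (node xS (enc u)) K2) ≠ leaf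

end Pool.Agent.H93.BB
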