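import Pool.Agent.H93.BB.TabProg

set_option autoImplicit false

/-!
# Tableaux of computations: the program checking the rules
-/

namespace Pool.Agent.H93.BB.Tab

open Pool.Agent.H88.RO Pool.Agent.H88.RO.Tr

theorem UFP_ruleT {N p q c v w c1 v1 w1 c2 v2 w2 : Orc → Tr → Tr} (hN : UFP N) (hp : UFP p)
    (hq : UFP q) (hc : UFP c) (hv : UFP v) (hw : UFP w) (hc1 : UFP c1) (hv1 : UFP v1)
    (hw1 : UFP w1) (hc2 : UFP c2) (hv2 : UFP v2) (hw2 : UFP w2) :
    UFP (fun O x => ruleT (fldT O 0 (N O x)) (fldT O 1 (N O x)) (N O x) (p O x) (q O x)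
      (c O x) (v O x) (w O x) (c1 O x) (v1 O x) (w1 O x) (c2 O x) (v2 O x) (w2 O x)) := by
  have L : ∀ {a : Orc → Tr → Tr}, UFP a → UFP (fun O x => fldT O 0 (N O x) (a O x)) :=
    fun ha => UFP_fldT 0 hN ha
  have R : ∀ {a : Orc → Tr → Tr}, UFP a → UFP (fun O x => fldT O 1 (N O x) (a O x)) :=
    fun ha => UFP_fldT 1 hN ha
  have s0 := L hc
  have s1 := R s0
  have s2 := R s1
  have s3 := R s2
  have s4 := R s3
  have s5 := R s4
  have s6 := R s5
  have s7 := R s6
  have cR := R hc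
  unfold ruleT
  refine UFP.cs' (UFP_cmpT s0 hN) (UFP_cmpT hw hv) ?_
  refine UFP.cs' (UFP_cmpT s1 hN) (UFP_cmpT hw hN) ?_
  refine UFP.cs' (UFP_cmpT s2 hN) (UFP_cmpT hw (L hv)) ?_
  refine UFP.cs' (UFP_cmpT s3 hN) (UFP_cmpT hw (R hv)) ?_
  refine UFP.cs' (UFP_cmpT s4 hN) (UFP_cmpT hw hN) ?_
  refine UFP.cs' (UFP_cmpT s5 hN) (UFP_anT (UFP_noT (UFP_cmpT hw hN))
    (UFP_anT (UFP_anT hp (UFP_anT (UFP_cmpT hc1 (L cR)) (UFP_anT (UFP_cmpT hv1 hv)
      (UFP_cmpT hw1 (L hw))))) (UFP_anT hq (UFP_anT (UFP_cmpT hc2 (R cR))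
      (UFP_anT (UFP_cmpT hv2 hv) (UFP_cmpT hw2 (R hw))))))) ?_
  refine UFP.cs' (UFP_cmpT s6 hN) (UFP_anT (UFP_anT hp (UFP_anT (UFP_cmpT hc1 (R cR))
    (UFP_cmpT hv1 hv))) (UFP_anT hq (UFP_anT (UFP_cmpT hc2 (L cR)) (UFP_anT (UFP_cmpT hv2 hw1)
      (UFP_cmpT hw2 hw))))) ?_
  refine UFP.cs' (UFP_cmpT s7 hN) (UFP.cs' (UFP_cmpT (L hv) hN)
    (UFP_anT hp (UFP_anT (UFP_cmpT hc1 (L cR)) (UFP_anT (UFP_cmpT hv1 (R hv))
      (UFP_cmpT hw1 hw))))
    (UFP_anT hp (UFP_anT (UFP_cmpT hc1 (R cR)) (UFP_anT (UFP_cmpT hv1 (R hv))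
      (UFP_cmpT hw1 hw))))) ?_
  exact UFP.cs' (UFP_cmpT (L hv) hN) (UFP_cmpT hw (R hv))
    (UFP_anT (UFP_anT hp (UFP_anT (UFP_cmpT hc1 cR) (UFP_cmpT hv1 hv)))
      (UFP_anT hq (UFP_anT (UFP_cmpT hc2 hc) (UFP_anT (UFP_cmpT hv2 hw1) (UFP_cmpT hw2 hw)))))

/-- the test of the rule of a heap address -/
def hrT (O : Orc) (N a : Tr) : Tr :=
  cs (cmpT a N) (anT (cmpT (fldT O 0 N a) N) (cmpT (fldT O 1 N a) N))
    (anT (ltT (fldT O 0 N a) a) (ltT (fldT O 1 N a) a))

theorem UFP_hrT {N a : Orc → Tr → Tr} (hN : UFP N) (ha : UFP a) :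
    UFP (fun O x => hrT O (N O x) (a O x)) :=
  UFP.cs' (UFP_cmpT ha hN) (UFP_anT (UFP_cmpT (UFP_fldT 0 hN ha) hN)
    (UFP_cmpT (UFP_fldT 1 hN ha) hN)) (UFP_anT (UFP_ltT (UFP_fldT 0 hN ha) ha)
    (UFP_ltT (UFP_fldT 1 hN ha) ha))

theorem enc_nl (N : ℕ) : enc (nl N) = num N := by
  induction N with
  | zero => rfl
  | succ N ih =>
    rw [nl, List.replicate_succ, enc, ← nl, ih]
    rfl

theorem hrT_leaf (A : Orc) (N : ℕ) {a : List Bool} (ha : a.length = N) :
    hrT (join A zero) (num N) (enc a) = leaf ↔ HRule A N a := by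
  unfold hrT HRule
  simp only [fldT_enc, cs_leaf, anT_leaf]
  rw [← enc_nl]
  simp only [cmpT_leaf, ltT_leaf, length_fld, length_nl, ha]

/-- the test of the rule of a record -/
def rrT (O : Orc) (N r : Tr) : Tr :=
  ruleT (fldT O 0 N) (fldT O 1 N) N (ltT (fldT O 5 N r) r) (ltT (fldT O 6 N r) r)
    (fldT O 2 N r) (fldT O 3 N r) (fldT O 4 N r)
    (fldT O 2 N (fldT O 5 N r)) (fldT O 3 N (fldT O 5 N r)) (fldT O 4 N (fldT O 5 N r))
    (fldT O 2 N (fldT O 6 N r)) (fldT O 3 N (fldT O 6 N r)) (fldT O 4 N (fldT O 6 N r))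

theorem UFP_rrT {N r : Orc → Tr → Tr} (hN : UFP N) (hr : UFP r) :
    UFP (fun O x => rrT O (N O x) (r O x)) := by
  have h5 := UFP_fldT 5 hN hr
  have h6 := UFP_fldT 6 hN hr
  exact UFP_ruleT hN (UFP_ltT h5 hr) (UFP_ltT h6 hr) (UFP_fldT 2 hN hr) (UFP_fldT 3 hN hr)
    (UFP_fldT 4 hN hr) (UFP_fldT 2 hN h5) (UFP_fldT 3 hN h5) (UFP_fldT 4 hN h5)
    (UFP_fldT 2 hN h6) (UFP_fldT 3 hN h6) (UFP_fldT 4 hN h6)

theorem rrT_leaf (A : Orc) (N : ℕ) {r : List Bool} (hr : r.length = N) :
    rrT (join A zero) (num N) (enc r) = leaf ↔ RRule A N r := by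
  unfold rrT RRule
  simp only [fldT_enc]
  nth_rewrite 3 [← enc_nl]
  exact ruleT_leaf (fun a => fldT_enc _ _ _ _) (fun a => fldT_enc _ _ _ _)
    (fun a => length_fld _ _ _ _) (fun a => length_fld _ _ _ _)
    (ltT_leaf ((length_fld _ _ _ _).trans hr.symm)) (ltT_leaf ((length_fld _ _ _ _).trans hr.symm))
    (length_nl _) (length_fld _ _ _ _) (length_fld _ _ _ _) (length_fld _ _ _ _)
    (length_fld _ _ _ _) (length_fld _ _ _ _) (length_fld _ _ _ _)
    (length_fld _ _ _ _) (length_fld _ _ _ _) (length_fld _ _ _ _)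

/-! ### matching a pointer with a tree -/

/-- one step of the matching; the argument is a list of pairs (tree, pointer) -/
def mnx (O : Orc) (N l : Tr) : Tr :=
  cs l leaf (cs (fst (fst l)) (cs (cmpT (snd (fst l)) N) (snd l) l)
    (cs (cmpT (snd (fst l)) N) l
      (node (node (fst (fst (fst l))) (fldT O 0 N (snd (fst l))))
        (node (node (snd (fst (fst l))) (fldT O 1 N (snd (fst l)))) (snd l)))))

/-- one step of the matching; states `node N l` -/
def mst (O : Orc) (s : Tr) : Tr := node (fst s) (mnx O (fst s) (snd s))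

theorem UFP_mst : UFP mst := by
  have hf : UFP (fun _ s => fst s) := UFP.fst' UFP.id'
  have hl : UFP (fun _ s => snd s) := UFP.snd' UFP.id'
  have ha : UFP (fun _ s => snd (fst (snd s))) := UFP.snd' (UFP.fst' hl)
  unfold mst mnx
  refine UFP.node' hf (UFP.cs' hl UFP.leaf' (UFP.cs' (UFP.fst' (UFP.fst' hl))
    (UFP.cs' (UFP_cmpT ha hf) (UFP.snd' hl) hl) (UFP.cs' (UFP_cmpT ha hf) hl
      (UFP.node' (UFP.node' (UFP.fst' (UFP.fst' (UFP.fst' hl))) (UFP_fldT 0 hf ha))
        (UFP.node' (UFP.node' (UFP.snd' (UFP.fst' (UFP.fst' hl))) (UFP_fldT 1 hf ha))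
          (UFP.snd' hl))))))

theorem size_mnx (O : Orc) (N l : Tr) : size (mnx O N l) ≤ size l + 8 * len N + 20 := by
  have h1 := size_fldT O 0 N (snd (fst l))
  have h2 := size_fldT O 1 N (snd (fst l))
  have a1 := size_snd_le l
  have a2 : size (fst l) + size (snd l) ≤ size l + 1 := by
    cases l with
    | leaf => simp [size]
    | node p q => simp [size]; omega
  have a3 : size (fst (fst (fst l))) + size (snd (fst (fst l))) ≤ size (fst (fst l)) + 1 := by
    cases fst (fst l) with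
    | leaf => simp [size]
    | node p q => simp [size]; omega
  have a4 := size_fst_le (fst l)
  have a5 := size_pos l
  unfold mnx cs
  split_ifs
  · simp only [size]; omega
  · omega
  · omega
  · omega
  · simp only [size]; omega

theorem mst_iter (O : Orc) (N : Tr) (n : ℕ) : ∀ l, (mst O)^[n] (node N l) =
    node N ((mnx O N)^[n] l) := by
  induction n with
  | zero => intro l; rfl
  | succ n ih =>
    intro l
    rw [Function.iterate_succ_apply, Function.iterate_succ_apply]
    exact ih _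

theorem size_mst (O : Orc) (s : Tr) (n : ℕ) : size ((mst O)^[n] s) ≤
    size s + n * (8 * size s + 20) + 2 := by
  rcases Nat.eq_zero_or_pos n with rfl | hn
  · simp
  obtain ⟨m, rfl⟩ : ∃ m, n = m + 1 := ⟨n - 1, by omega⟩
  have h1 : ∀ i l, size ((mnx O (fst s))^[i] l) ≤ size l + i * (8 * len (fst s) + 20) := by
    intro i
    induction i with
    | zero => intro l; simp
    | succ i ih =>
      intro l
      rw [Function.iterate_succ_apply']
      have h1 := size_mnx O (fst s) ((mnx O (fst s))^[i] l)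
      have h2 := ih l
      have h3 : (i + 1) * (8 * len (fst s) + 20) = i * (8 * len (fst s) + 20) +
        (8 * len (fst s) + 20) := by ring
      omega
  have h2 : (mst O)^[m + 1] s = node (fst s) ((mnx O (fst s))^[m + 1] (snd s)) := by
    rw [Function.iterate_succ_apply, Function.iterate_succ_apply]
    exact mst_iter O (fst s) m _
  rw [h2]
  have h3 := h1 (m + 1) (snd s)
  have h4 := len_le_size (fst s)
  have h5 : (m + 1) * (8 * len (fst s) + 20) ≤ (m + 1) * (8 * size s + 20) :=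
    Nat.mul_le_mul_left _ (by have := size_fst_le s; omega)
  have h6 : size (fst s) + size (snd s) ≤ size s + 1 := by
    cases s with
    | leaf => simp [size]
    | node p q => simp [size]; omega
  simp only [size]
  omega

/-- matching of all pairs of a list, in `len K` steps (`leaf` means success) -/
def mtT (O : Orc) (K N l : Tr) : Tr := snd ((mst O)^[len K] (node N l))

theorem UFP_mtT {K N l : Orc → Tr → Tr} (hK : UFP K) (hN : UFP N) (hl : UFP l) :
    UFP (fun O x => mtT O (K O x) (N O x) (l O x)) := by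
  unfold mtT
  refine UFP.snd' (UFP.iterate' UFP_mst hK (UFP.node' hN hl)
    ⟨Polynomial.X + Polynomial.X * (8 * Polynomial.X + 20) + 2, fun O n x i hi => ?_⟩)
  refine (size_mst O x i).trans ?_
  simp only [Polynomial.eval_add, Polynomial.eval_mul, Polynomial.eval_ofNat, Polynomial.eval_X]
  have h1 := len_le_size n
  have h2 : i * (8 * size x + 20) ≤ (size n + size x) * (8 * (size n + size x) + 20) :=
    Nat.mul_le_mul (by omega) (by omega)
  omega

/-- a list of pairs as a tree -/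
def stk : List (Tr × List Bool) → Tr
  | [] => leaf
  | e :: l => node (node e.1 (enc e.2)) (stk l)

section match_lemmas

variable (A : Orc) (N : ℕ)

theorem mnx_leaf {a : List Bool} (k : List (Tr × List Bool)) (ha : a.length = N) :
    mnx (join A zero) (num N) (stk ((leaf, a) :: k)) =
      if a = nl N then stk k else stk ((leaf, a) :: k) := by
  have h1 : stk ((leaf, a) :: k) ≠ leaf := by simp [stk]
  unfold mnx
  rw [cs_neg _ _ h1]
  simp only [stk, fst_node, snd_node]
  rw [cs_pos _ _ rfl, ← enc_nl]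
  split_ifs with h
  · rw [cs_pos _ _ ((cmpT_leaf (by simp [ha])).mpr h)]
  · rw [cs_neg _ _ (fun h2 => h ((cmpT_leaf (by simp [ha])).mp h2))]

theorem mnx_node {a : List Bool} (x y : Tr) (k : List (Tr × List Bool)) (ha : a.length = N) :
    mnx (join A zero) (num N) (stk ((node x y, a) :: k)) =
      if a = nl N then stk ((node x y, a) :: k)
        else stk ((x, fld A N 0 a) :: (y, fld A N 1 a) :: k) := by
  have h1 : stk ((node x y, a) :: k) ≠ leaf := by simp [stk]
  unfold mnx
  rw [cs_neg _ _ h1]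
  simp only [stk, fst_node, snd_node, fldT_enc]
  rw [cs_neg _ _ (by simp), ← enc_nl]
  split_ifs with h
  · rw [cs_pos _ _ ((cmpT_leaf (by simp [ha])).mpr h)]
  · rw [cs_neg _ _ (fun h2 => h ((cmpT_leaf (by simp [ha])).mp h2))]

theorem mnx_stuck {l : Tr} (hl : l ≠ leaf) (h : mnx (join A zero) (num N) l = l) (n : ℕ) :
    (mnx (join A zero) (num N))^[n] l ≠ leaf := by
  rw [Function.iterate_fixed h]
  exact hl

theorem mt_sound (x : Tr) : ∀ (a : List Bool) (k : List (Tr × List Bool)), a.length = N →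
    (∃ n, (mnx (join A zero) (num N))^[n] (stk ((x, a) :: k)) = leaf) →
    Mt (fld A N 0) (fld A N 1) (nl N) x a ∧
      ∃ n, (mnx (join A zero) (num N))^[n] (stk k) = leaf := by
  induction x with
  | leaf =>
    intro a k ha ⟨n, hn⟩
    have h0 := mnx_leaf A N k ha
    by_cases h : a = nl N
    · rw [if_pos h] at h0
      refine ⟨h, ?_⟩
      cases n with
      | zero => simp [stk] at hn
      | succ n =>
        rw [Function.iterate_succ_apply, h0] at hn
        exact ⟨n, hn⟩
    · rw [if_neg h] at h0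
      exact absurd hn (mnx_stuck A N (by simp [stk]) h0 n)
  | node x y ihx ihy =>
    intro a k ha ⟨n, hn⟩
    have h0 := mnx_node A N x y k ha
    by_cases h : a = nl N
    · rw [if_pos h] at h0
      exact absurd hn (mnx_stuck A N (by simp [stk]) h0 n)
    · rw [if_neg h] at h0
      cases n with
      | zero => simp [stk] at hn
      | succ n =>
        rw [Function.iterate_succ_apply, h0] at hn
        obtain ⟨h1, h2⟩ := ihx _ _ (length_fld _ _ _ _) ⟨n, hn⟩
        obtain ⟨h3, h4⟩ := ihy _ _ (length_fld _ _ _ _) h2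
        exact ⟨⟨h, h1, h3⟩, h4⟩

theorem mt_complete (x : Tr) : ∀ (a : List Bool) (k : List (Tr × List Bool)), a.length = N →
    Mt (fld A N 0) (fld A N 1) (nl N) x a →
    (mnx (join A zero) (num N))^[size x] (stk ((x, a) :: k)) = stk k := by
  induction x with
  | leaf =>
    intro a k ha h
    have h0 := mnx_leaf A N k ha
    rw [if_pos (show a = nl N from h)] at h0
    exact h0
  | node x y ihx ihy =>
    intro a k ha h
    have h0 := mnx_node A N x y k ha
    rw [if_neg h.1] at h0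
    have e : size (node x y) = size y + size x + 1 := by simp only [size]; omega
    rw [e, Function.iterate_succ_apply, h0, Function.iterate_add_apply,
      ihx _ _ (length_fld _ _ _ _) h.2.1, ihy _ _ (length_fld _ _ _ _) h.2.2]

theorem mnx_leaf_iter (n : ℕ) : (mnx (join A zero) (num N))^[n] leaf = leaf := by
  apply Function.iterate_fixed
  unfold mnx
  rw [cs_pos _ _ rfl]

theorem mtT_leaf {K : ℕ} {x y : Tr} {a b : List Bool} (ha : a.length = N) (hb : b.length = N)
    (hK : size x + size y ≤ K) :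
    mtT (join A zero) (num K) (num N) (node (node x (enc a)) (node (node y (enc b)) leaf)) = leaf ↔
      Mt (fld A N 0) (fld A N 1) (nl N) x a ∧ Mt (fld A N 0) (fld A N 1) (nl N) y b := by
  have e : node (node x (enc a)) (node (node y (enc b)) leaf) = stk [(x, a), (y, b)] := rfl
  rw [e, mtT, len_num, mst_iter, snd_node]
  constructor
  · intro h
    obtain ⟨h1, h2⟩ := mt_sound A N x a _ ha ⟨K, h⟩
    obtain ⟨h3, h4⟩ := mt_sound A N y b _ hb h2
    exact ⟨h1, h3⟩
  · rintro ⟨h1, h2⟩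
    obtain ⟨m, rfl⟩ : ∃ m, K = m + size y + size x := ⟨K - (size x + size y), by omega⟩
    rw [Function.iterate_add_apply, mt_complete A N x a _ ha h1, Function.iterate_add_apply,
      mt_complete A N y b _ hb h2]
    exact mnx_leaf_iter A N m

end match_lemmas

/-! ### the root and the whole test -/

/-- the test of the root -/
def roT (O : Orc) (x N z : Tr) : Tr :=
  anT (mtT O N N (node (node x (fldT O 2 N (fldT O 7 N N)))
    (node (node z (fldT O 0 N (fldT O 3 N (fldT O 7 N N)))) leaf)))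
    (anT (noT (cmpT (fldT O 3 N (fldT O 7 N N)) N)) (noT (cmpT (fldT O 4 N (fldT O 7 N N)) N)))

theorem UFP_roT (x : Tr) {N z : Orc → Tr → Tr} (hN : UFP N) (hz : UFP z) :
    UFP (fun O v => roT O x (N O v) (z O v)) := by
  have hr := UFP_fldT 7 hN hN
  have h2 := UFP_fldT 2 hN hr
  have h3 := UFP_fldT 3 hN hr
  have h4 := UFP_fldT 4 hN hr
  exact UFP_anT (UFP_mtT hN hN (UFP.node' (UFP.node' (UFP.const' x) h2)
    (UFP.node' (UFP.node' hz (UFP_fldT 0 hN h3)) UFP.leaf')))
    (UFP_anT (UFP_noT (UFP_cmpT h3 hN)) (UFP_noT (UFP_cmpT h4 hN)))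

theorem roT_leaf (A : Orc) {N : ℕ} {x : Tr} {z : List Bool} (hK : size x + size (enc z) ≤ N) :
    roT (join A zero) x (num N) (enc z) = leaf ↔ Root A N x z := by
  have e7 : fldT (join A zero) 7 (num N) (num N) = enc (fld A N 7 (nl N)) := by
    nth_rewrite 2 [← enc_nl]
    exact fldT_enc _ _ _ _
  unfold roT Root
  simp only [e7, fldT_enc, anT_leaf, noT_leaf]
  rw [mtT_leaf A N (length_fld _ _ _ _) (length_fld _ _ _ _) hK, ← enc_nl]
  simp only [ne_eq]
  rw [cmpT_leaf (by simp), cmpT_leaf (by simp), and_assoc]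

/-- the number of address bits -/
def NT (D : ℕ) (z : Tr) : Tr := mulU (num D) (node leaf z)

theorem NT_enc (D : ℕ) (z : List Bool) : NT D (enc z) = num (D * (z.length + 1)) := by
  rw [NT, mulU_eq, len_num]
  simp [len]

/-- the whole test (`leaf`: no violation) -/
def chT (D : ℕ) (x : Tr) (O : Orc) (v : Tr) : Tr :=
  cs (snd v) (roT O x (NT D (fst v)) (fst v))
    (cs (anT (dropU (snd (snd v)) (NT D (fst v))) (dropU (NT D (fst v)) (snd (snd v))))
      (cs (fst (snd v)) (hrT O (NT D (fst v)) (snd (snd v))) (rrT O (NT D (fst v)) (snd (snd v))))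
      leaf)

theorem UFP_chT (D : ℕ) (x : Tr) : UFP (chT D x) := by
  have hz : UFP (fun _ v => fst v) := UFP.fst' UFP.id'
  have ha : UFP (fun _ v => snd (snd v)) := UFP.snd' (UFP.snd' UFP.id')
  have hN : UFP (fun _ v => NT D (fst v)) :=
    UFP.pure (FP.mulU' (FP.const' _) (FP.node' FP.leaf' (FP.fst' FP.id')))
  have hd1 : UFP (fun _ v => dropU (snd (snd v)) (NT D (fst v))) :=
    pure2 (F := dropU) (FP.dropU' (FP.fst' FP.id') (FP.snd' FP.id')) ha hN
  have hd2 : UFP (fun _ v => dropU (NT D (fst v)) (snd (snd v))) :=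
    pure2 (F := dropU) (FP.dropU' (FP.fst' FP.id') (FP.snd' FP.id')) hN ha
  exact UFP.cs' (UFP.snd' UFP.id') (UFP_roT x hN hz) (UFP.cs' (UFP_anT hd1 hd2)
    (UFP.cs' (UFP.fst' (UFP.snd' UFP.id')) (UFP_hrT hN ha) (UFP_rrT hN ha)) UFP.leaf')

theorem chT_nil (A : Orc) {D : ℕ} {x : Tr} {z : List Bool}
    (hK : size x + size (enc z) ≤ D * (z.length + 1)) :
    chT D x (join A zero) (node (enc z) (enc [])) = leaf ↔ Root A (D * (z.length + 1)) x z := by
  unfold chT
  rw [snd_node, fst_node, cs_pos _ _ (by rfl), NT_enc]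
  exact roT_leaf A hK

theorem chT_cons (A : Orc) {D : ℕ} {x : Tr} {z : List Bool} (b : Bool) (a : List Bool) :
    chT D x (join A zero) (node (enc z) (enc (b :: a))) = leaf ↔
      (a.length = D * (z.length + 1) → if b then RRule A (D * (z.length + 1)) a
        else HRule A (D * (z.length + 1)) a) := by
  have e1 : snd (enc (b :: a)) = enc a := rfl
  have e2 : fst (enc (b :: a)) = bit b := rfl
  unfold chT
  rw [snd_node, fst_node, cs_neg _ _ (by simp [enc]), NT_enc, e1, e2]
  have h1 : anT (dropU (enc a) (num (D * (z.length + 1)))) (dropU (num (D * (z.length + 1))) (enc a))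
      = leaf ↔ a.length = D * (z.length + 1) := by
    rw [anT_leaf, dropU_eq_leaf, dropU_eq_leaf, len_num, len_enc]
    omega
  by_cases h : a.length = D * (z.length + 1)
  · rw [cs_pos _ _ (h1.mpr h)]
    cases b with
    | false =>
      rw [cs_pos _ _ (by rfl), hrT_leaf A _ h]
      simp [h]
    | true =>
      rw [cs_neg _ _ (by simp [bit]), rrT_leaf A _ h]
      simp [h]
  · rw [cs_neg _ _ (fun h2 => h (h1.mp h2))]
    simp [h]

end Pool.Agent.H93.BB.Tab
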