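import Pool.Agent.H93.BB.TabRule

set_option autoImplicit false

/-!
# Tableaux of computations: the tableau of a given computation

From a derivation of `Eval zero c v w t` we build a tableau with at most polynomially many (in `t`)
records and trees.
-/

namespace Pool.Agent.H93.BB.Tab

open Pool.Agent.H88.RO Pool.Agent.H88.RO.Tr

/-! ### indexed lists -/

/-- the entry number `i` of a list, counted from the end -/
def look {β : Type} (d : β) : List β → ℕ → β
  | [], _ => d
  | x :: l, i => if i = l.length then x else look d l i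

theorem look_ge {β : Type} (d : β) (l : List β) : ∀ i, l.length ≤ i → look d l i = d := by
  induction l with
  | nil => intro i _; rfl
  | cons x l ih =>
    intro i hi
    simp only [List.length_cons] at hi
    rw [look, if_neg (by omega), ih i (by omega)]

theorem look_cons_lt {β : Type} (d x : β) {l : List β} {i : ℕ} (hi : i < l.length) :
    look d (x :: l) i = look d l i := by
  rw [look, if_neg (by omega)]

theorem exists_look {β : Type} (d : β) {x : β} {l : List β} (h : x ∈ l) :
    ∃ i < l.length, look d l i = x := by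
  induction l with
  | nil => simp at h
  | cons y l ih =>
    rcases List.mem_cons.mp h with h1 | h1
    · exact ⟨l.length, by simp, by rw [look, if_pos rfl, h1]⟩
    · obtain ⟨i, hi, h2⟩ := ih h1
      exact ⟨i, by simp; omega, by rw [look_cons_lt d y hi, h2]⟩

/-! ### lists of judgments -/

/-- judgments: code, input, output -/
abbrev Ent := Tr × Tr × Tr

/-- the rule for judgments -/
def ERule (p q : Prop) (e e1 e2 : Ent) : Prop :=
  Rule fst snd leaf p q e.1 e.2.1 e.2.2 e1.1 e1.2.1 e1.2.2 e2.1 e2.2.1 e2.2.2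

theorem ERule.mono {p q p' q' : Prop} {e e1 e2 e1' e2' : Ent} (hp : p → p' ∧ e1' = e1)
    (hq : q → q' ∧ e2' = e2) (h : ERule p q e e1 e2) : ERule p' q' e e1' e2' := by
  refine Rule.mono ?_ ?_ h
  · intro h1
    obtain ⟨h2, h3⟩ := hp h1
    subst h3
    exact ⟨h2, rfl, rfl, rfl⟩
  · intro h1
    obtain ⟨h2, h3⟩ := hq h1
    subst h3
    exact ⟨h2, rfl, rfl, rfl⟩

/-- every judgment follows from later ones of the list -/
inductive Good : List Ent → Prop
  | nil : Good []
  | cons {e e1 e2 : Ent} {l : List Ent} (hl : Good l) (h : ERule (e1 ∈ l) (e2 ∈ l) e e1 e2) :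
      Good (e :: l)

theorem Good.append {l1 l2 : List Ent} (h1 : Good l1) (h2 : Good l2) : Good (l1 ++ l2) := by
  induction h1 with
  | nil => exact h2
  | @cons e e1 e2 l hl h ih =>
    exact Good.cons (e1 := e1) (e2 := e2) ih (h.mono
      (fun h => ⟨List.mem_append_left _ h, rfl⟩) (fun h => ⟨List.mem_append_left _ h, rfl⟩))

/-- sizes of the components -/
def Bd (s t : ℕ) (e : Ent) : Prop := size e.1 ≤ s ∧ size e.2.1 ≤ t ∧ size e.2.2 ≤ 2 * t

theorem Bd.mono {s t s' t' : ℕ} {e : Ent} (h : Bd s t e) (hs : s ≤ s') (ht : t ≤ t') :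
    Bd s' t' e := by
  obtain ⟨h1, h2, h3⟩ := h
  exact ⟨by omega, by omega, by omega⟩

theorem exists_good {c : Prog} {v w : Tr} {t : ℕ} (h : Eval zero c v w t) :
    ∃ l : List Ent, Good l ∧ (code c, v, w) ∈ l ∧ l.length ≤ t ∧
      ∀ e ∈ l, Bd (size (code c)) t e := by
  have one : ∀ (c : Prog) (v w : Tr) (t : ℕ), Eval zero c v w t →
      ERule False False (code c, v, w) (leaf, leaf, leaf) (leaf, leaf, leaf) →
      ∃ l : List Ent, Good l ∧ (code c, v, w) ∈ l ∧ l.length ≤ t ∧
      ∀ e ∈ l, Bd (size (code c)) t e := by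
    intro c v w t he hr
    have h1 := he.cost_ge
    have h2 := he.size_le
    refine ⟨[(code c, v, w)], Good.cons (e1 := (leaf, leaf, leaf)) (e2 := (leaf, leaf, leaf))
      Good.nil (hr.mono (fun h => h.elim) (fun h => h.elim)), by simp, by simp; omega, ?_⟩
    intro e he
    rw [List.mem_singleton] at he
    subst he
    exact ⟨le_rfl, by simp only; omega, h2⟩
  have two : ∀ (c c1 c2 : Prog) (v w v1 w1 v2 w2 : Tr) (t t1 t2 : ℕ), Eval zero c v w t →
      (∃ l : List Ent, Good l ∧ (code c1, v1, w1) ∈ l ∧ l.length ≤ t1 ∧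
        ∀ e ∈ l, Bd (size (code c1)) t1 e) →
      (∃ l : List Ent, Good l ∧ (code c2, v2, w2) ∈ l ∧ l.length ≤ t2 ∧
        ∀ e ∈ l, Bd (size (code c2)) t2 e) →
      size (code c1) ≤ size (code c) → size (code c2) ≤ size (code c) → t1 + t2 + 1 ≤ t →
      ERule True True (code c, v, w) (code c1, v1, w1) (code c2, v2, w2) →
      ∃ l : List Ent, Good l ∧ (code c, v, w) ∈ l ∧ l.length ≤ t ∧
      ∀ e ∈ l, Bd (size (code c)) t e := by
    intro c c1 c2 v w v1 w1 v2 w2 t t1 t2 he ⟨l1, a1, a2, a3, a4⟩ ⟨l2, b1, b2, b3, b4⟩ h1 h2 h3 hr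
    have h4 := he.cost_ge
    have h5 := he.size_le
    refine ⟨(code c, v, w) :: (l1 ++ l2), Good.cons (e1 := (code c1, v1, w1))
      (e2 := (code c2, v2, w2)) (a1.append b1) (hr.mono
        (fun _ => ⟨List.mem_append_left _ a2, rfl⟩) (fun _ => ⟨List.mem_append_right _ b2, rfl⟩)),
      by simp, ?_, ?_⟩
    · simp only [List.length_cons, List.length_append]; omega
    · intro e he
      rcases List.mem_cons.mp he with he | he
      · subst he
        exact ⟨le_rfl, by simp only; omega, h5⟩
      · rcases List.mem_append.mp he with he | he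
        · exact (a4 e he).mono h1 (by omega)
        · exact (b4 e he).mono h2 (by omega)
  have onec : ∀ (c c1 : Prog) (v w v1 w1 : Tr) (t t1 : ℕ), Eval zero c v w t →
      (∃ l : List Ent, Good l ∧ (code c1, v1, w1) ∈ l ∧ l.length ≤ t1 ∧
        ∀ e ∈ l, Bd (size (code c1)) t1 e) →
      size (code c1) ≤ size (code c) → t1 + 1 ≤ t →
      ERule True False (code c, v, w) (code c1, v1, w1) (leaf, leaf, leaf) →
      ∃ l : List Ent, Good l ∧ (code c, v, w) ∈ l ∧ l.length ≤ t ∧
      ∀ e ∈ l, Bd (size (code c)) t e := by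
    intro c c1 v w v1 w1 t t1 he ⟨l1, a1, a2, a3, a4⟩ h1 h3 hr
    have h4 := he.cost_ge
    have h5 := he.size_le
    refine ⟨(code c, v, w) :: l1, Good.cons (e1 := (code c1, v1, w1))
      (e2 := (leaf, leaf, leaf)) a1 (hr.mono (fun _ => ⟨a2, rfl⟩) (fun h => h.elim)),
      by simp, ?_, ?_⟩
    · simp only [List.length_cons]; omega
    · intro e he
      rcases List.mem_cons.mp he with he | he
      · subst he
        exact ⟨le_rfl, by simp only; omega, h5⟩
      · exact (a4 e he).mono h1 (by omega)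
  induction h with
  | id v => exact one _ _ _ _ (Eval.id v) (by simp [ERule, Rule, IT, code, num])
  | nil v => exact one _ _ _ _ (Eval.nil v) (by simp [ERule, Rule, IT, code, num])
  | fst v => exact one _ _ _ _ (Eval.fst v) (by simp [ERule, Rule, IT, code, num])
  | snd v => exact one _ _ _ _ (Eval.snd v) (by simp [ERule, Rule, IT, code, num])
  | query v =>
    exact one _ _ _ _ (Eval.query v) (by simp [ERule, Rule, IT, code, num, zero, bit])
  | pair hf hg ihf ihg =>
    refine two _ _ _ _ _ _ _ _ _ _ _ _ (Eval.pair hf hg) ihf ihg ?_ ?_ ?_ ?_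
    · simp only [code, size]; omega
    · simp only [code, size]; omega
    · omega
    · simp [ERule, Rule, IT, code, num]
  | comp hg hf ihg ihf =>
    refine two _ _ _ _ _ _ _ _ _ _ _ _ (Eval.comp hg hf) ihg ihf ?_ ?_ ?_ ?_
    · simp only [code, size]; omega
    · simp only [code, size]; omega
    · omega
    · simp [ERule, Rule, IT, code, num]
  | condNil h hf ihf =>
    refine onec _ _ _ _ _ _ _ _ (Eval.condNil h hf) ihf ?_ ?_ ?_
    · simp only [code, size]; omega
    · omega
    · simp [ERule, Rule, IT, code, num, h]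
  | condNode h hf ihf =>
    refine onec _ _ _ _ _ _ _ _ (Eval.condNode h hf) ihf ?_ ?_ ?_
    · simp only [code, size]; omega
    · omega
    · simp [ERule, Rule, IT, code, num, h]
  | loopDone h => exact one _ _ _ _ (Eval.loopDone h) (by simp [ERule, Rule, IT, code, num, h])
  | loopStep h hf hl ihf ihl =>
    refine two _ _ _ _ _ _ _ _ _ _ _ _ (Eval.loopStep h hf hl) ihf ihl ?_ ?_ ?_ ?_
    · simp only [code, size]; omega
    · exact le_rfl
    · omega
    · simp [ERule, Rule, IT, code, num, h]

/-- the default judgment -/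
def dE : Ent := (leaf, leaf, leaf)

theorem Good.look {l : List Ent} (h : Good l) : ∀ i, ∃ j1 j2 : ℕ, j1 ≤ l.length ∧ j2 ≤ l.length ∧
    ERule (j1 < i) (j2 < i) (look dE l i) (look dE l j1) (look dE l j2) := by
  have dflt : ∀ (l : List Ent) (i : ℕ), l.length ≤ i → ∃ j1 j2 : ℕ, j1 ≤ l.length ∧
      j2 ≤ l.length ∧
      ERule (j1 < i) (j2 < i) (Tab.look dE l i) (Tab.look dE l j1) (Tab.look dE l j2) := by
    intro l i hi
    refine ⟨0, 0, by omega, by omega, ?_⟩
    rw [look_ge dE l i hi]
    simp [ERule, Rule, IT, dE]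
  induction h with
  | nil => exact fun i => dflt [] i (by simp)
  | @cons e e1 e2 l hl h ih =>
    intro i
    rcases Nat.lt_trichotomy i l.length with hi | hi | hi
    · obtain ⟨j1, j2, h1, h2, h3⟩ := ih i
      refine ⟨j1, j2, by simp; omega, by simp; omega, ?_⟩
      rw [look_cons_lt dE e hi]
      exact h3.mono (fun h4 => ⟨h4, look_cons_lt dE e (by omega)⟩)
        (fun h4 => ⟨h4, look_cons_lt dE e (by omega)⟩)
    · have k1 : ∃ j1 ≤ l.length, e1 ∈ l → j1 < l.length ∧ Tab.look dE l j1 = e1 := by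
        by_cases h1 : e1 ∈ l
        · obtain ⟨j, hj, h2⟩ := exists_look dE h1
          exact ⟨j, by omega, fun _ => ⟨hj, h2⟩⟩
        · exact ⟨0, by omega, fun h2 => absurd h2 h1⟩
      have k2 : ∃ j2 ≤ l.length, e2 ∈ l → j2 < l.length ∧ Tab.look dE l j2 = e2 := by
        by_cases h1 : e2 ∈ l
        · obtain ⟨j, hj, h2⟩ := exists_look dE h1
          exact ⟨j, by omega, fun _ => ⟨hj, h2⟩⟩
        · exact ⟨0, by omega, fun h2 => absurd h2 h1⟩
      obtain ⟨j1, h1, h2⟩ := k1
      obtain ⟨j2, h3, h4⟩ := k2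
      refine ⟨j1, j2, by simp; omega, by simp; omega, ?_⟩
      have e0 : Tab.look dE (e :: l) i = e := by rw [Tab.look, if_pos hi]
      rw [e0]
      refine h.mono ?_ ?_
      · intro h5
        obtain ⟨h6, h7⟩ := h2 h5
        exact ⟨by omega, by rw [look_cons_lt dE e h6, h7]⟩
      · intro h5
        obtain ⟨h6, h7⟩ := h4 h5
        exact ⟨by omega, by rw [look_cons_lt dE e h6, h7]⟩
    · exact dflt _ i (by simp; omega)

/-! ### the heap -/

/-- heaps: lists of trees closed under subtrees, later entries first -/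
inductive HG : List Tr → Prop
  | base : HG [leaf]
  | cons {x : Tr} {H : List Tr} (hH : HG H) (h1 : fst x ∈ H) (h2 : snd x ∈ H) : HG (x :: H)

/-- put the subtrees of a tree on the heap -/
def post : Tr → List Tr → List Tr
  | leaf, H => H
  | node a b, H => node a b :: post a (post b H)

theorem post_sub (x : Tr) : ∀ {H : List Tr} {y : Tr}, y ∈ H → y ∈ post x H := by
  induction x with
  | leaf => intro H y h; exact h
  | node a b iha ihb => intro H y h; exact List.mem_cons_of_mem _ (iha (ihb h))

theorem mem_post (x : Tr) {H : List Tr} (h : leaf ∈ H) : x ∈ post x H := by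
  cases x with
  | leaf => exact h
  | node a b => exact List.mem_cons_self

theorem HG.leaf_mem {H : List Tr} (h : HG H) : leaf ∈ H := by
  induction h with
  | base => simp
  | cons hH h1 h2 ih => exact List.mem_cons_of_mem _ ih

theorem HG.post {x : Tr} : ∀ {H : List Tr}, HG H → HG (post x H) := by
  induction x with
  | leaf => intro H h; exact h
  | node a b iha ihb =>
    intro H h
    have hb := ihb h
    refine HG.cons (iha hb) ?_ ?_
    · exact mem_post a hb.leaf_mem
    · exact post_sub a (mem_post b h.leaf_mem)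

theorem length_post (x : Tr) : ∀ H : List Tr, (post x H).length ≤ H.length + size x := by
  induction x with
  | leaf => intro H; simp [Tab.post]
  | node a b iha ihb =>
    intro H
    have h1 := iha (Tab.post b H)
    have h2 := ihb H
    simp only [Tab.post, List.length_cons, size]
    omega

/-- the heap of a list of judgments -/
def heap : List Ent → List Tr
  | [] => [leaf]
  | e :: l => post e.1 (post e.2.1 (post e.2.2 (heap l)))

theorem HG_heap (l : List Ent) : HG (heap l) := by
  induction l with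
  | nil => exact HG.base
  | cons e l ih => exact ih.post.post.post

theorem length_heap (B : ℕ) (l : List Ent) (h : ∀ e ∈ l, size e.1 + size e.2.1 + size e.2.2 ≤ B) :
    (heap l).length ≤ l.length * B + 1 := by
  induction l with
  | nil => simp [heap]
  | cons e l ih =>
    have h0 := ih (fun e he => h e (List.mem_cons_of_mem _ he))
    have h1 := length_post e.1 (post e.2.1 (post e.2.2 (heap l)))
    have h2 := length_post e.2.1 (post e.2.2 (heap l))
    have h3 := length_post e.2.2 (heap l)
    have h4 := h e List.mem_cons_self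
    have h5 : (l.length + 1) * B = l.length * B + B := by ring
    simp only [heap, List.length_cons]
    omega

theorem mem_heap {l : List Ent} {e : Ent} (h : e ∈ l) :
    e.1 ∈ heap l ∧ e.2.1 ∈ heap l ∧ e.2.2 ∈ heap l := by
  induction l with
  | nil => simp at h
  | cons y l ih =>
    rcases List.mem_cons.mp h with h1 | h1
    · subst h1
      have g0 := HG_heap l
      refine ⟨mem_post _ g0.post.post.leaf_mem, post_sub _ (mem_post _ g0.post.leaf_mem),
        post_sub _ (post_sub _ (mem_post _ g0.leaf_mem))⟩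
    · obtain ⟨h2, h3, h4⟩ := ih h1
      exact ⟨post_sub _ (post_sub _ (post_sub _ h2)), post_sub _ (post_sub _ (post_sub _ h3)),
        post_sub _ (post_sub _ (post_sub _ h4))⟩

theorem HG.pos {H : List Tr} (h : HG H) : 0 < H.length := by
  cases h <;> simp

theorem HG.zero {H : List Tr} (h : HG H) : look leaf H 0 = leaf := by
  induction h with
  | base => rfl
  | cons hH h1 h2 ih => rw [look_cons_lt _ _ hH.pos, ih]

theorem HG.child {H : List Tr} (h : HG H) : ∀ i, look leaf H i ≠ leaf →
    (∃ j < i, look leaf H j = fst (look leaf H i)) ∧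
    (∃ j < i, look leaf H j = snd (look leaf H i)) := by
  induction h with
  | base =>
    intro i hi
    exfalso
    apply hi
    cases i with
    | zero => rfl
    | succ i => exact look_ge _ _ _ (by simp)
  | @cons x H hH h1 h2 ih =>
    intro i hi
    rcases Nat.lt_trichotomy i H.length with h3 | h3 | h3
    · rw [look_cons_lt _ _ h3] at hi ⊢
      obtain ⟨⟨j1, a1, a2⟩, ⟨j2, b1, b2⟩⟩ := ih i hi
      exact ⟨⟨j1, a1, by rw [look_cons_lt _ _ (by omega), a2]⟩,
        ⟨j2, b1, by rw [look_cons_lt _ _ (by omega), b2]⟩⟩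
    · obtain ⟨j1, a1, a2⟩ := exists_look leaf h1
      obtain ⟨j2, b1, b2⟩ := exists_look leaf h2
      have e0 : look leaf (x :: H) i = x := by rw [look, if_pos h3]
      rw [e0]
      exact ⟨⟨j1, by omega, by rw [look_cons_lt _ _ a1, a2]⟩,
        ⟨j2, by omega, by rw [look_cons_lt _ _ b1, b2]⟩⟩
    · exact absurd (look_ge _ _ _ (by simp; omega)) hi

/-- the canonical pointer of a tree -/
noncomputable def ptr (H : List Tr) (x : Tr) : ℕ := sInf {i | look leaf H i = x}

theorem ptr_spec {H : List Tr} {x : Tr} (h : ∃ i, look leaf H i = x) :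
    look leaf H (ptr H x) = x :=
  Nat.sInf_mem (s := {i | look leaf H i = x}) h

theorem ptr_le {H : List Tr} {x : Tr} {i : ℕ} (h : look leaf H i = x) : ptr H x ≤ i :=
  Nat.sInf_le h

theorem ptr_leaf {H : List Tr} (h : HG H) : ptr H leaf = 0 :=
  Nat.le_zero.mp (ptr_le h.zero)

theorem ptr_le_length {H : List Tr} (h : HG H) (x : Tr) : ptr H x ≤ H.length := by
  by_contra hcon
  rw [not_le] at hcon
  have hne : {i | look leaf H i = x}.Nonempty := by
    by_contra h1
    rw [Set.not_nonempty_iff_eq_empty] at h1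
    rw [ptr, h1, Nat.sInf_empty] at hcon
    omega
  have h1 := ptr_spec hne
  rw [look_ge _ _ _ hcon.le] at h1
  rw [← h1, ptr_leaf h] at hcon
  omega

theorem ptr_hom {H : List Tr} (h : HG H) : Hom fst snd leaf
    (fun i => ptr H (fst (look leaf H i))) (fun i => ptr H (snd (look leaf H i))) 0
    (fun x => ∃ i, look leaf H i = x) (ptr H) := by
  have hc : ∀ x, (∃ i, look leaf H i = x) → (∃ i, look leaf H i = fst x) ∧
      (∃ i, look leaf H i = snd x) := by
    rintro x ⟨i, hi⟩
    by_cases hx : x = leaf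
    · subst hx
      exact ⟨⟨0, h.zero⟩, ⟨0, h.zero⟩⟩
    · rw [← hi] at hx
      obtain ⟨⟨j1, a1, a2⟩, ⟨j2, b1, b2⟩⟩ := h.child i hx
      rw [hi] at a2 b2
      exact ⟨⟨j1, a2⟩, ⟨j2, b2⟩⟩
  refine ⟨ptr_leaf h, ⟨0, h.zero⟩, fun a ha => (hc a ha).1, fun a ha => (hc a ha).2, ?_, ?_, ?_⟩
  · intro a ha
    simp only [ptr_spec ha]
  · intro a ha
    simp only [ptr_spec ha]
  · intro a ha
    constructor
    · intro h1
      have h2 := ptr_spec ha
      rw [h1, h.zero] at h2
      exact h2.symm
    · intro h1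
      rw [h1, ptr_leaf h]

theorem ptr_child_lt {H : List Tr} (h : HG H) {i : ℕ} (hi : i ≠ 0) :
    ptr H (fst (look leaf H i)) < i ∧ ptr H (snd (look leaf H i)) < i := by
  by_cases hx : look leaf H i = leaf
  · rw [hx, fst_leaf, snd_leaf, ptr_leaf h]
    omega
  · obtain ⟨⟨j1, a1, a2⟩, ⟨j2, b1, b2⟩⟩ := h.child i hx
    have h1 := ptr_le a2
    have h2 := ptr_le b2
    omega

/-- The properties of a correct tableau over `ℕ`: heap `F 0`, `F 1`, records
`F 2` (code), `F 3` (input), `F 4` (output), `F 5`, `F 6` (premises), root `F 7 0`. -/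
structure NTab (F : ℕ → ℕ → ℕ) (c v w : Tr) : Prop where
  L0 : F 0 0 = 0
  R0 : F 1 0 = 0
  L : ∀ i, i ≠ 0 → F 0 i < i
  R : ∀ i, i ≠ 0 → F 1 i < i
  rule : ∀ r, Rule (F 0) (F 1) 0 (F 5 r < r) (F 6 r < r) (F 2 r) (F 3 r) (F 4 r)
    (F 2 (F 5 r)) (F 3 (F 5 r)) (F 4 (F 5 r)) (F 2 (F 6 r)) (F 3 (F 6 r)) (F 4 (F 6 r))
  c : Mt (F 0) (F 1) 0 c (F 2 (F 7 0))
  v : Mt (F 0) (F 1) 0 v (F 3 (F 7 0))
  w : Mt (F 0) (F 1) 0 w (F 4 (F 7 0))

theorem exists_NTab {c : Prog} {v w : Tr} {t : ℕ} (h : Eval zero c v w t) :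
    ∃ F : ℕ → ℕ → ℕ, NTab F (code c) v w ∧
      ∀ k i, F k i ≤ t * (size (code c) + t + 2 * t) + 1 := by
  obtain ⟨l, h1, h2, h3, h4⟩ := exists_good h
  choose j1 j2 hj1 hj2 hr using h1.look
  have hH := HG_heap l
  set H := heap l with hHdef
  obtain ⟨r0, hr0, er0⟩ := exists_look dE h2
  have hin : ∀ i, (∃ j, look leaf H j = (look dE l i).1) ∧ (∃ j, look leaf H j = (look dE l i).2.1) ∧
      (∃ j, look leaf H j = (look dE l i).2.2) := by
    intro i
    rcases Nat.lt_or_ge i l.length with hi | hi
    · have hm : look dE l i ∈ l := by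
        clear * - hi
        induction l with
        | nil => simp at hi
        | cons x l ih =>
          rw [look]
          split_ifs with h
          · exact List.mem_cons_self
          · exact List.mem_cons_of_mem _ (ih (by simp at hi; omega))
      obtain ⟨m1, m2, m3⟩ := mem_heap hm
      obtain ⟨a, _, ha⟩ := exists_look leaf m1
      obtain ⟨b, _, hb⟩ := exists_look leaf m2
      obtain ⟨c, _, hc⟩ := exists_look leaf m3
      exact ⟨⟨a, ha⟩, ⟨b, hb⟩, ⟨c, hc⟩⟩
    · rw [look_ge dE l i hi]
      exact ⟨⟨0, hH.zero⟩, ⟨0, hH.zero⟩, ⟨0, hH.zero⟩⟩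
  have hlen : H.length ≤ t * (size (code c) + t + 2 * t) + 1 := by
    refine (length_heap (size (code c) + t + 2 * t) l ?_).trans ?_
    · intro e he
      obtain ⟨b1, b2, b3⟩ := h4 e he
      omega
    · have := Nat.mul_le_mul_right (size (code c) + t + 2 * t) h3
      omega
  have hl : l.length ≤ t * (size (code c) + t + 2 * t) + 1 := by
    have h5 := size_pos (code c)
    have h6 : t * 1 ≤ t * (size (code c) + t + 2 * t) := Nat.mul_le_mul_left _ (by omega)
    omega
  let F : ℕ → ℕ → ℕ := fun k i => match k with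
    | 0 => ptr H (fst (look leaf H i))
    | 1 => ptr H (snd (look leaf H i))
    | 2 => ptr H (look dE l i).1
    | 3 => ptr H (look dE l i).2.1
    | 4 => ptr H (look dE l i).2.2
    | 5 => j1 i
    | 6 => j2 i
    | _ => r0
  have hp := ptr_hom hH
  refine ⟨F, ⟨?_, ?_, ?_, ?_, ?_, ?_, ?_, ?_⟩, ?_⟩
  · show ptr H (fst (look leaf H 0)) = 0
    rw [hH.zero, fst_leaf, ptr_leaf hH]
  · show ptr H (snd (look leaf H 0)) = 0
    rw [hH.zero, snd_leaf, ptr_leaf hH]
  · exact fun i hi => (ptr_child_lt hH hi).1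
  · exact fun i hi => (ptr_child_lt hH hi).2
  · intro r
    exact Rule.map hp id id (hin r).1 (hin r).2.1 (hin r).2.2 (hr r)
  · show Mt (F 0) (F 1) 0 (code c) (ptr H (look dE l r0).1)
    have := Mt.map hp (hin r0).1 ((Mt_Tr _ _).mpr rfl)
    rw [er0] at this ⊢
    exact this
  · show Mt (F 0) (F 1) 0 v (ptr H (look dE l r0).2.1)
    have := Mt.map hp (hin r0).2.1 ((Mt_Tr _ _).mpr rfl)
    rw [er0] at this ⊢
    exact this
  · show Mt (F 0) (F 1) 0 w (ptr H (look dE l r0).2.2)
    have := Mt.map hp (hin r0).2.2 ((Mt_Tr _ _).mpr rfl)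
    rw [er0] at this ⊢
    exact this
  · intro k i
    match k with
    | 0 => exact (ptr_le_length hH _).trans hlen
    | 1 => exact (ptr_le_length hH _).trans hlen
    | 2 => exact (ptr_le_length hH _).trans hlen
    | 3 => exact (ptr_le_length hH _).trans hlen
    | 4 => exact (ptr_le_length hH _).trans hlen
    | 5 => exact (hj1 i).trans hl
    | 6 => exact (hj2 i).trans hl
    | (n + 7) => exact hr0.le.trans hl

end Pool.Agent.H93.BB.Tab
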