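import Pool.Agent.H93.BB.TabHeap

set_option autoImplicit false

/-!
# Tableaux of computations: tableaux as oracles
-/

namespace Pool.Agent.H93.BB.Tab

open Pool.Agent.H88.RO Pool.Agent.H88.RO.Tr

/-! ### pointers as strings -/

/-- the value of a string, least significant bit first -/
def val : List Bool → ℕ
  | [] => 0
  | b :: w => (if b then 1 else 0) + 2 * val w

/-- the string of length `N` with value `m` -/
def bits (N m : ℕ) : List Bool := (List.range N).map (fun j => m.testBit j)

@[simp] theorem length_bits (N m : ℕ) : (bits N m).length = N := by simp [bits]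

theorem bits_succ (N m : ℕ) : bits (N + 1) m = m.testBit 0 :: bits N (m / 2) := by
  unfold bits
  rw [List.range_succ_eq_map, List.map_cons, List.map_map]
  congr 1
  apply List.map_congr_left
  intro j _
  simp [Nat.testBit_succ]

theorem val_bits (N : ℕ) : ∀ m : ℕ, m < 2 ^ N → val (bits N m) = m := by
  induction N with
  | zero => intro m hm; simp at hm; subst hm; rfl
  | succ N ih =>
    intro m hm
    rw [bits_succ, val, ih (m / 2) (by rw [pow_succ] at hm; omega), Nat.testBit_zero]
    rcases Nat.mod_two_eq_zero_or_one m with h | h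
    · simp [h]; omega
    · simp [h]; omega

theorem val_lt (w : List Bool) : val w < 2 ^ w.length := by
  induction w with
  | nil => simp [val]
  | cons b w ih =>
    rw [val, List.length_cons, pow_succ]
    split_ifs <;> omega

theorem bits_val (w : List Bool) : bits w.length (val w) = w := by
  induction w with
  | nil => rfl
  | cons b w ih =>
    rw [List.length_cons, bits_succ]
    have h1 : val (b :: w) / 2 = val w := by
      rw [val]; split_ifs <;> omega
    rw [h1, ih]
    congr 1
    rw [Nat.testBit_zero, val]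
    cases b <;> simp

theorem val_inj {N : ℕ} {x y : List Bool} (hx : x.length = N) (hy : y.length = N)
    (h : val x = val y) : x = y := by
  rw [← bits_val x, ← bits_val y, hx, hy, h]

/-- the pointer to `leaf` -/
def nl (N : ℕ) : List Bool := List.replicate N false

@[simp] theorem length_nl (N : ℕ) : (nl N).length = N := by simp [nl]

theorem val_nl (N : ℕ) : val (nl N) = 0 := by
  induction N with
  | zero => rfl
  | succ N ih =>
    rw [nl, List.replicate_succ, val, ← nl, ih]
    simp

theorem bits_zero (N : ℕ) : bits N 0 = nl N :=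
  val_inj (length_bits N 0) (length_nl N) (by rw [val_nl, val_bits N 0 (by positivity)])

/-! ### tableaux -/

/-- the query for bit `j` of field `k` of the pointer `a` -/
def qry (k j : ℕ) (a : List Bool) : List Bool :=
  List.replicate k true ++ false :: (List.replicate j true ++ false :: a)

/-- field `k` of the pointer `a` -/
def fld (A : Orc) (N k : ℕ) (a : List Bool) : List Bool :=
  (List.range N).map (fun j => A (qry k j a))

@[simp] theorem length_fld (A : Orc) (N k : ℕ) (a : List Bool) : (fld A N k a).length = N := by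
  simp [fld]

/-- the rule of a heap address -/
def HRule (A : Orc) (N : ℕ) (a : List Bool) : Prop :=
  IT (a = nl N) (fld A N 0 a = nl N ∧ fld A N 1 a = nl N)
    (val (fld A N 0 a) < val a ∧ val (fld A N 1 a) < val a)

/-- the rule of a record -/
def RRule (A : Orc) (N : ℕ) (r : List Bool) : Prop :=
  Rule (fld A N 0) (fld A N 1) (nl N) (val (fld A N 5 r) < val r) (val (fld A N 6 r) < val r)
    (fld A N 2 r) (fld A N 3 r) (fld A N 4 r)
    (fld A N 2 (fld A N 5 r)) (fld A N 3 (fld A N 5 r)) (fld A N 4 (fld A N 5 r))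
    (fld A N 2 (fld A N 6 r)) (fld A N 3 (fld A N 6 r)) (fld A N 4 (fld A N 6 r))

/-- the rule of the root: it is a record for the code `x`, an input of the form
`node (enc z) Y` and an output different from `leaf` -/
def Root (A : Orc) (N : ℕ) (x : Tr) (z : List Bool) : Prop :=
  Mt (fld A N 0) (fld A N 1) (nl N) x (fld A N 2 (fld A N 7 (nl N))) ∧
  Mt (fld A N 0) (fld A N 1) (nl N) (enc z) (fld A N 0 (fld A N 3 (fld A N 7 (nl N)))) ∧
  fld A N 3 (fld A N 7 (nl N)) ≠ nl N ∧ fld A N 4 (fld A N 7 (nl N)) ≠ nl N

/-- **Soundness.** -/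
theorem sound_STab {A : Orc} {N : ℕ} {c : Prog} {z : List Bool}
    (hH : ∀ a : List Bool, a.length = N → HRule A N a)
    (hR : ∀ a : List Bool, a.length = N → RRule A N a) (hroot : Root A N (code c) z) :
    ∃ Y v t, v ≠ leaf ∧ Eval zero c (node (enc z) Y) v t := by
  have hT := tree_hom (L := fld A N 0) (R := fld A N 1) (nul := nl N)
    (S := fun a => a.length = N) (rk := val) (length_nl N) (fun a _ => length_fld _ _ _ _)
    (fun a _ => length_fld _ _ _ _) ((hH (nl N) (length_nl N)).1 rfl).1
    ((hH (nl N) (length_nl N)).1 rfl).2 (fun a ha h => (hH a ha).2 h)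
  set T : List Bool → Tr := fun a => tree (fld A N 0) (fld A N 1) (nl N) (val a) a with hTdef
  set r := fld A N 7 (nl N) with hr
  obtain ⟨h1, h2, h3, h4⟩ := hroot
  have hc : T (fld A N 2 r) = code c :=
    (Mt_Tr _ _).mp (Mt.map hT (length_fld _ _ _ _) h1)
  have hz : T (fld A N 0 (fld A N 3 r)) = enc z :=
    (Mt_Tr _ _).mp (Mt.map hT (length_fld _ _ _ _) h2)
  have hi : T (fld A N 3 r) = node (enc z) (snd (T (fld A N 3 r))) := by
    have h5 : T (fld A N 3 r) ≠ leaf := fun h => h3 ((hT.iff _ (length_fld _ _ _ _)).mp h)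
    have h6 := hT.hL (fld A N 3 r) (length_fld _ _ _ _)
    rw [hz] at h6
    rw [← h6]
    cases hx : T (fld A N 3 r) with
    | leaf => exact absurd hx h5
    | node x y => simp
  obtain ⟨t, ht⟩ := sound hT (lab := fld A N 2) (inp := fld A N 3) (out := fld A N 4)
    (c1 := fld A N 5) (c2 := fld A N 6) (rk := val) (fun a _ => length_fld _ _ _ _)
    (fun a _ => length_fld _ _ _ _) (fun a _ => length_fld _ _ _ _)
    (fun a _ => length_fld _ _ _ _) (fun a _ => length_fld _ _ _ _) hR (val r + 1) r
    (by omega) (length_fld _ _ _ _) c hc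
  rw [hi] at ht
  exact ⟨_, _, t, fun h => h4 ((hT.iff _ (length_fld _ _ _ _)).mp h), ht⟩

/-- the oracle of a tableau -/
def orc (F : ℕ → ℕ → ℕ) : Orc := fun q =>
  match parse q with
  | none => false
  | some (k, q') => match parse q' with
    | none => false
    | some (j, a) => (F k (val a)).testBit j

theorem fld_orc (F : ℕ → ℕ → ℕ) (N k : ℕ) (a : List Bool) :
    fld (orc F) N k a = bits N (F k (val a)) := by
  unfold fld bits
  apply List.map_congr_left
  intro j _
  simp only [orc, qry, H65.TS.parse_ones]

theorem bits_hom {F : ℕ → ℕ → ℕ} {N : ℕ} (hF : ∀ k i, F k i < 2 ^ N) :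
    Hom (F 0) (F 1) 0 (fld (orc F) N 0) (fld (orc F) N 1) (nl N) (fun m => m < 2 ^ N)
      (bits N) := by
  refine ⟨bits_zero N, by positivity, fun a _ => hF 0 a, fun a _ => hF 1 a, ?_, ?_, ?_⟩
  · intro a ha
    rw [fld_orc, val_bits N a ha]
  · intro a ha
    rw [fld_orc, val_bits N a ha]
  · intro a ha
    constructor
    · intro h
      have := congrArg val h
      rwa [val_bits N a ha, val_nl] at this
    · intro h
      rw [h, bits_zero]

/-- **Completeness.** -/
theorem complete_STab {F : ℕ → ℕ → ℕ} {x Y v : Tr} {z : List Bool} {N : ℕ}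
    (h : NTab F x (node (enc z) Y) v) (hF : ∀ k i, F k i < 2 ^ N) (hv : v ≠ leaf) :
    (∀ a : List Bool, a.length = N → HRule (orc F) N a) ∧
    (∀ a : List Bool, a.length = N → RRule (orc F) N a) ∧ Root (orc F) N x z := by
  have hb := bits_hom hF
  refine ⟨?_, ?_, ?_⟩
  · intro a ha
    refine ⟨?_, ?_⟩
    · intro h1
      rw [h1, fld_orc, fld_orc, val_nl, h.L0, h.R0, bits_zero]
      exact ⟨rfl, rfl⟩
    · intro h1
      have h2 : val a ≠ 0 := by
        intro h2
        exact h1 (val_inj ha (length_nl N) (by rw [h2, val_nl]))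
      rw [fld_orc, fld_orc, val_bits N _ (hF _ _), val_bits N _ (hF _ _)]
      exact ⟨h.L _ h2, h.R _ h2⟩
  · intro r hr
    have h1 := Rule.map hb (p' := val (fld (orc F) N 5 r) < val r)
      (q' := val (fld (orc F) N 6 r) < val r) (by
        intro h2; rw [fld_orc, val_bits N _ (hF _ _)]; exact h2) (by
        intro h2; rw [fld_orc, val_bits N _ (hF _ _)]; exact h2)
      (hF _ _) (hF _ _) (hF _ _) (h.rule (val r))
    unfold RRule
    simp only [fld_orc, val_bits N _ (hF _ _)] at h1 ⊢
    exact h1
  · unfold Root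
    simp only [fld_orc, val_bits N _ (hF _ _), val_nl]
    refine ⟨?_, ?_, ?_, ?_⟩
    · exact Mt.map hb (hF _ _) h.c
    · exact Mt.map hb (hF _ _) h.v.2.1
    · exact fun h1 => h.v.1 ((hb.iff _ (hF _ _)).mp h1)
    · intro h1
      have h2 := (hb.iff _ (hF _ _)).mp h1
      have h3 := h.w
      cases v with
      | leaf => exact hv rfl
      | node p q => exact h3.1 h2

end Pool.Agent.H93.BB.Tab
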