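import Pool.Agent.H93.BB.TabOrc

set_option autoImplicit false

/-!
# Tableaux of computations: programs
-/

namespace Pool.Agent.H93.BB.Tab

open Pool.Agent.H88.RO Pool.Agent.H88.RO.Tr

/-- composition with an oracle free function of two arguments -/
theorem pure2 {F : Tr → Tr → Tr} {G H : Orc → Tr → Tr} (hF : FP zero (fun v => F (fst v) (snd v)))
    (hG : UFP G) (hH : UFP H) : UFP (fun O v => F (G O v) (H O v)) :=
  UFP.pure' (F := fun v => F (fst v) (snd v)) hF (UFP.node' hG hH)

/-! ### reading a field -/

/-- one step of reading a field; states `node (node J a) acc` -/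
def fstep (k : Tr) (O : Orc) (s : Tr) : Tr :=
  node (node (snd (fst (fst s))) (snd (fst s)))
    (node (bit (O (dec (node leaf (onesPre k (node leaf (onesPre (snd (fst (fst s)))
      (node leaf (snd (fst s)))))))))) (snd s))

/-- read field `k` of the pointer `a` -/
def fldT (O : Orc) (k : ℕ) (N a : Tr) : Tr :=
  snd ((fstep (num k) O)^[len N] (node (node N a) leaf))

theorem snd_fstep (k : Tr) (O : Orc) (n : ℕ) : ∀ s, size (snd ((fstep k O)^[n] s)) ≤
    size (snd s) + 4 * n := by
  induction n with
  | zero => intro s; simp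
  | succ n ih =>
    intro s
    rw [Function.iterate_succ_apply]
    refine (ih _).trans ?_
    have hb := size_bit_le (O (dec (node leaf (onesPre k (node leaf (onesPre (snd (fst (fst s)))
      (node leaf (snd (fst s)))))))))
    have h : size (snd (fstep k O s)) ≤ size (snd s) + 4 := by
      unfold fstep
      simp only [snd_node, size]
      omega
    omega

theorem size_fldT (O : Orc) (k : ℕ) (N a : Tr) : size (fldT O k N a) ≤ 4 * len N + 1 := by
  have := snd_fstep (num k) O (len N) (node (node N a) leaf)
  simp only [snd_node, size] at this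
  unfold fldT
  omega

theorem size_fstep (k : Tr) (O : Orc) (s : Tr) : size (fstep k O s) ≤ size s + 10 := by
  have hb := size_bit_le (O (dec (node leaf (onesPre k (node leaf (onesPre (snd (fst (fst s)))
      (node leaf (snd (fst s)))))))))
  have a1 := size_snd_le (fst (fst s))
  have a2 : size (fst s) + size (snd s) ≤ size s + 1 := by
    cases s with
    | leaf => simp [size]
    | node p q => simp [size]; omega
  have a3 : size (fst (fst s)) + size (snd (fst s)) ≤ size (fst s) + 1 := by
    cases fst s with
    | leaf => simp [size]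
    | node p q => simp [size]; omega
  unfold fstep
  simp only [size]
  omega

theorem UFP_fstep (k : Tr) : UFP (fstep k) := by
  unfold fstep
  have h1 : UFP (fun _ s => onesPre (snd (fst (fst s))) (node leaf (snd (fst s)))) :=
    UFP.pure (FP.onesPre' (FP.snd' (FP.fst' (FP.fst' FP.id')))
      (FP.node' FP.leaf' (FP.snd' (FP.fst' FP.id'))))
  have h2 : UFP (fun _ s => onesPre k (node leaf (onesPre (snd (fst (fst s)))
      (node leaf (snd (fst s)))))) :=
    UFP.pure (FP.onesPre' (FP.const' _) (FP.node' FP.leaf'
      (FP.onesPre' (FP.snd' (FP.fst' (FP.fst' FP.id')))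
      (FP.node' FP.leaf' (FP.snd' (FP.fst' FP.id'))))))
  refine UFP.node' (UFP.node' ?_ ?_) (UFP.node' (UFP.query' (UFP.node' UFP.leaf' h2)) ?_)
  · exact UFP.snd' (UFP.fst' (UFP.fst' UFP.id'))
  · exact UFP.snd' (UFP.fst' UFP.id')
  · exact UFP.snd' UFP.id'

theorem UFP_fldT (k : ℕ) {N a : Orc → Tr → Tr} (hN : UFP N) (ha : UFP a) :
    UFP (fun O v => fldT O k (N O v) (a O v)) := by
  unfold fldT
  exact UFP.snd' (UFP.iterate_add (UFP_fstep (num k)) hN
    (UFP.node' (UFP.node' hN ha) UFP.leaf') 10 (fun O x => size_fstep _ _ _))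

theorem fstep_iter (A : Orc) (k : ℕ) (a : List Bool) (n : ℕ) : ∀ w : List Bool,
    (fstep (num k) (join A zero))^[n] (node (node (num n) (enc a)) (enc w)) =
      node (node leaf (enc a)) (enc ((List.range n).map (fun j => A (qry k j a)) ++ w)) := by
  induction n with
  | zero => intro w; simp [num]
  | succ n ih =>
    intro w
    rw [Function.iterate_succ_apply]
    have h1 : fstep (num k) (join A zero) (node (node (num (n + 1)) (enc a)) (enc w)) =
        node (node (num n) (enc a)) (enc (A (qry k n a) :: w)) := by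
      have e1 : node leaf (enc a) = enc (false :: a) := rfl
      have e2 : ∀ s : List Bool, node leaf (enc s) = enc (false :: s) := fun _ => rfl
      have e3 : snd (num (n + 1)) = num n := rfl
      unfold fstep
      simp only [fst_node, snd_node, e3, e1, onesPre_enc, e2, dec_enc, len_num]
      rfl
    rw [h1, ih, List.range_succ, List.map_append]
    simp

@[simp] theorem fldT_enc (A : Orc) (k N : ℕ) (a : List Bool) :
    fldT (join A zero) k (num N) (enc a) = enc (fld A N k a) := by
  have := fstep_iter A k a N []
  simp only [enc, List.append_nil] at this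
  rw [fldT, len_num, this]
  rfl

/-! ### comparison -/

/-- one step of the comparison of two strings; states `node a (node b acc)` -/
def cstp (s : Tr) : Tr :=
  node (snd (fst s)) (node (snd (fst (snd s)))
    (cs (fst (fst s)) (cs (fst (fst (snd s))) (snd (snd s)) tt)
      (cs (fst (fst (snd s))) (num 2) (snd (snd s)))))

/-- comparison: `leaf` for equality, `tt` for less, `num 2` for greater -/
def cmpT (a b : Tr) : Tr := snd (snd (cstp^[len a] (node a (node b leaf))))

theorem FP_cmpT : FP zero (fun v => cmpT (fst v) (snd v)) := by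
  have hd : FP zero cstp := by
    unfold cstp cs tt
    (repeat (first | with_reducible exact FP.id' | assumption | with_reducible apply FP.fst' | with_reducible apply FP.snd' | with_reducible apply FP.node' | with_reducible apply FP.query' | with_reducible apply FP.ite' | with_reducible exact FP.const' _))
  unfold cmpT
  refine FP.snd' (FP.snd' (FP.iterate_add hd (FP.fst' FP.id') (FP.node' (FP.fst' FP.id')
    (FP.node' (FP.snd' FP.id') FP.leaf')) 10 (fun s => ?_)))
  have a1 := size_snd_le (fst s)
  have a2 : size (fst s) + size (snd s) ≤ size s + 1 := by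
    cases s with
    | leaf => simp [size]
    | node p q => simp [size]; omega
  have a3 : size (fst (snd s)) + size (snd (snd s)) ≤ size (snd s) + 1 := by
    cases snd s with
    | leaf => simp [size]
    | node p q => simp [size]; omega
  have a4 := size_snd_le (fst (snd s))
  have a5 := size_pos (snd (snd s))
  have e2 : size (num 2) = 5 := size_num 2
  unfold cstp cs
  split_ifs <;> (simp only [size, tt]; omega)

theorem cstp_iter : ∀ (x y : List Bool) (acc : Tr), x.length = y.length →
    cstp^[x.length] (node (enc x) (node (enc y) acc)) =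
      node leaf (node leaf (if val x = val y then acc else if val x < val y then tt
        else num 2)) := by
  intro x
  induction x with
  | nil =>
    intro y acc h
    cases y with
    | nil => simp [enc]
    | cons c y => simp at h
  | cons b x ih =>
    intro y acc h
    cases y with
    | nil => simp at h
    | cons c y =>
      simp only [List.length_cons, Nat.add_right_cancel_iff] at h
      rw [List.length_cons, Function.iterate_succ_apply]
      have h1 : cstp (node (enc (b :: x)) (node (enc (c :: y)) acc)) =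
          node (enc x) (node (enc y) (if b = c then acc else if b = false then tt
            else num 2)) := by
        cases b <;> cases c <;> simp [cstp, enc, bit, cs]
      rw [h1, ih y _ h]
      congr 2
      have e1 : val (b :: x) = (if b then 1 else 0) + 2 * val x := rfl
      have e2 : val (c :: y) = (if c then 1 else 0) + 2 * val y := rfl
      rw [e1, e2]
      cases b <;> cases c <;> simp <;> split_ifs <;> first | rfl | omega

theorem cmpT_enc {x y : List Bool} (h : x.length = y.length) : cmpT (enc x) (enc y) =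
    if val x = val y then leaf else if val x < val y then tt else num 2 := by
  rw [cmpT, len_enc, cstp_iter x y leaf h]
  rfl

theorem cmpT_leaf {x y : List Bool} (h : x.length = y.length) :
    cmpT (enc x) (enc y) = leaf ↔ x = y := by
  rw [cmpT_enc h]
  constructor
  · intro h1
    split_ifs at h1 with h2 h3
    · exact val_inj h rfl h2
    · exact absurd h1 tt_ne
    · exact absurd h1 (by simp [num])
  · intro h1
    rw [h1, if_pos rfl]

/-- the test for `less` (`leaf` means yes) -/
def ltT (a b : Tr) : Tr := cs (cmpT a b) tt (snd (cmpT a b))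

theorem ltT_leaf {x y : List Bool} (h : x.length = y.length) :
    ltT (enc x) (enc y) = leaf ↔ val x < val y := by
  rw [ltT, cmpT_enc h]
  split_ifs with h1 h2
  · rw [cs_pos _ _ rfl]
    simp [h1]
  · rw [cs_neg _ _ tt_ne]
    simp [h2, tt]
  · rw [cs_neg _ _ (by simp [num])]
    simp [h2, num]

/-! ### logic (`leaf` means true) -/

/-- conjunction -/
def anT (p q : Tr) : Tr := cs p q tt

/-- negation -/
def noT (p : Tr) : Tr := cs p tt leaf

theorem anT_leaf (p q : Tr) : anT p q = leaf ↔ p = leaf ∧ q = leaf := by
  unfold anT cs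
  split_ifs with h
  · simp [h]
  · simp [h]

theorem noT_leaf (p : Tr) : noT p = leaf ↔ p ≠ leaf := by
  unfold noT cs
  split_ifs with h
  · simp [h]
  · simp [h]

theorem cs_leaf (p a b : Tr) : cs p a b = leaf ↔ IT (p = leaf) (a = leaf) (b = leaf) := by
  unfold cs IT
  split_ifs with h
  · simp [h]
  · simp [h]

theorem UFP_anT {F G : Orc → Tr → Tr} (hF : UFP F) (hG : UFP G) :
    UFP (fun O v => anT (F O v) (G O v)) := UFP.cs' hF hG (UFP.const' tt)

theorem UFP_noT {F : Orc → Tr → Tr} (hF : UFP F) : UFP (fun O v => noT (F O v)) :=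
  UFP.cs' hF (UFP.const' tt) UFP.leaf'

theorem UFP_cmpT {F G : Orc → Tr → Tr} (hF : UFP F) (hG : UFP G) :
    UFP (fun O v => cmpT (F O v) (G O v)) := pure2 FP_cmpT hF hG

theorem UFP_ltT {F G : Orc → Tr → Tr} (hF : UFP F) (hG : UFP G) :
    UFP (fun O v => ltT (F O v) (G O v)) :=
  UFP.cs' (UFP_cmpT hF hG) (UFP.const' tt) (UFP.snd' (UFP_cmpT hF hG))

/-! ### the rules -/

/-- the test of the rule of a record -/
def ruleT (L R : Tr → Tr) (nul p q c v w c1 v1 w1 c2 v2 w2 : Tr) : Tr :=
  cs (cmpT (L c) nul) (cmpT w v) <|
  cs (cmpT (R (L c)) nul) (cmpT w nul) <|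
  cs (cmpT (R (R (L c))) nul) (cmpT w (L v)) <|
  cs (cmpT (R (R (R (L c)))) nul) (cmpT w (R v)) <|
  cs (cmpT (R (R (R (R (L c))))) nul) (cmpT w nul) <|
  cs (cmpT (R (R (R (R (R (L c)))))) nul)
    (anT (noT (cmpT w nul)) (anT (anT p (anT (cmpT c1 (L (R c))) (anT (cmpT v1 v)
      (cmpT w1 (L w))))) (anT q (anT (cmpT c2 (R (R c))) (anT (cmpT v2 v) (cmpT w2 (R w))))))) <|
  cs (cmpT (R (R (R (R (R (R (L c))))))) nul)
    (anT (anT p (anT (cmpT c1 (R (R c))) (cmpT v1 v)))
      (anT q (anT (cmpT c2 (L (R c))) (anT (cmpT v2 w1) (cmpT w2 w))))) <|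
  cs (cmpT (R (R (R (R (R (R (R (L c)))))))) nul)
    (cs (cmpT (L v) nul) (anT p (anT (cmpT c1 (L (R c))) (anT (cmpT v1 (R v)) (cmpT w1 w))))
      (anT p (anT (cmpT c1 (R (R c))) (anT (cmpT v1 (R v)) (cmpT w1 w)))))
    (cs (cmpT (L v) nul) (cmpT w (R v))
      (anT (anT p (anT (cmpT c1 (R c)) (cmpT v1 v)))
        (anT q (anT (cmpT c2 c) (anT (cmpT v2 w1) (cmpT w2 w))))))

theorem ruleT_leaf {L R : Tr → Tr} {L' R' : List Bool → List Bool} {N : ℕ}
    (hL : ∀ a, L (enc a) = enc (L' a)) (hR : ∀ a, R (enc a) = enc (R' a))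
    (lL : ∀ a, (L' a).length = N) (lR : ∀ a, (R' a).length = N) {p q : Tr} {P Q : Prop}
    (hp : p = leaf ↔ P) (hq : q = leaf ↔ Q) {nul c v w c1 v1 w1 c2 v2 w2 : List Bool}
    (l0 : nul.length = N) (lc : c.length = N) (lv : v.length = N) (lw : w.length = N)
    (lc1 : c1.length = N) (lv1 : v1.length = N) (lw1 : w1.length = N)
    (lc2 : c2.length = N) (lv2 : v2.length = N) (lw2 : w2.length = N) :
    ruleT L R (enc nul) p q (enc c) (enc v) (enc w) (enc c1) (enc v1) (enc w1)
      (enc c2) (enc v2) (enc w2) = leaf ↔ Rule L' R' nul P Q c v w c1 v1 w1 c2 v2 w2 := by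
  have key : ∀ {x y : List Bool}, x.length = N → y.length = N →
      (cmpT (enc x) (enc y) = leaf ↔ x = y) := fun hx hy => cmpT_leaf (hx.trans hy.symm)
  unfold ruleT Rule
  simp only [cs_leaf, anT_leaf, noT_leaf, hL, hR, hp, hq]
  simp only [key, lL, lR, l0, lc, lv, lw, lc1, lv1, lw1, lc2, lv2, lw2, ne_eq]

end Pool.Agent.H93.BB.Tab
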