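import Pool.Agent.H93.BB.UFP

set_option autoImplicit false

/-!
# Tableaux of computations: the local rules

A tableau of a computation lives in a domain `α` of pointers with two partial destructors `L`, `R`
(`nul` is the pointer to `leaf`).  The rule of a record says that it follows, by one rule of
the big-step semantics with the zero oracle, from two other records.
-/

namespace Pool.Agent.H93.BB.Tab

open Pool.Agent.H88.RO Pool.Agent.H88.RO.Tr

/-- if `p` then `a` else `b` -/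
def IT (p a b : Prop) : Prop := (p → a) ∧ (¬ p → b)

theorem IT.imp {p p' a a' b b' : Prop} (hp : p' ↔ p) (ha : a → a') (hb : b → b')
    (h : IT p a b) : IT p' a' b' :=
  ⟨fun h1 => ha (h.1 (hp.mp h1)), fun h1 => hb (h.2 (fun h2 => h1 (hp.mpr h2)))⟩

/-- The rule of a record `(c, v, w)` (code, input, output) with the two possible premises
`(c1, v1, w1)` and `(c2, v2, w2)`; `p` and `q` say that the premises are admissible. -/
def Rule {α : Type} (L R : α → α) (nul : α) (p q : Prop) (c v w c1 v1 w1 c2 v2 w2 : α) : Prop :=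
  IT (L c = nul) (w = v) <|
  IT (R (L c) = nul) (w = nul) <|
  IT (R (R (L c)) = nul) (w = L v) <|
  IT (R (R (R (L c))) = nul) (w = R v) <|
  IT (R (R (R (R (L c)))) = nul) (w = nul) <|
  IT (R (R (R (R (R (L c))))) = nul)
    (w ≠ nul ∧ (p ∧ c1 = L (R c) ∧ v1 = v ∧ w1 = L w) ∧
      (q ∧ c2 = R (R c) ∧ v2 = v ∧ w2 = R w)) <|
  IT (R (R (R (R (R (R (L c)))))) = nul)
    ((p ∧ c1 = R (R c) ∧ v1 = v) ∧ (q ∧ c2 = L (R c) ∧ v2 = w1 ∧ w2 = w)) <|
  IT (R (R (R (R (R (R (R (L c))))))) = nul)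
    (IT (L v = nul) (p ∧ c1 = L (R c) ∧ v1 = R v ∧ w1 = w)
      (p ∧ c1 = R (R c) ∧ v1 = R v ∧ w1 = w))
    (IT (L v = nul) (w = R v)
      ((p ∧ c1 = R c ∧ v1 = v) ∧ (q ∧ c2 = c ∧ v2 = w1 ∧ w2 = w)))

/-- The pointer `a` describes the tree `x`. -/
def Mt {α : Type} (L R : α → α) (nul : α) : Tr → α → Prop
  | leaf, a => a = nul
  | node x y, a => a ≠ nul ∧ Mt L R nul x (L a) ∧ Mt L R nul y (R a)

theorem Mt_Tr (x y : Tr) : Mt fst snd leaf x y ↔ y = x := by
  induction x generalizing y with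
  | leaf => simp [Mt]
  | node a b iha ihb =>
    simp only [Mt, iha, ihb]
    cases y with
    | leaf => simp
    | node c d => simp [fst, snd]

/-- A homomorphism of pointer structures, on the set `S`. -/
structure Hom {α β : Type} (L R : α → α) (nul : α) (L' R' : β → β) (nul' : β) (S : α → Prop)
    (f : α → β) : Prop where
  hn : f nul = nul'
  hS : S nul
  SL : ∀ a, S a → S (L a)
  SR : ∀ a, S a → S (R a)
  hL : ∀ a, S a → L' (f a) = f (L a)
  hR : ∀ a, S a → R' (f a) = f (R a)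
  iff : ∀ a, S a → (f a = nul' ↔ a = nul)

theorem Mt.map {α β : Type} {L R : α → α} {nul : α} {L' R' : β → β} {nul' : β} {S : α → Prop}
    {f : α → β} (hf : Hom L R nul L' R' nul' S f) {x : Tr} : ∀ {a : α}, S a → Mt L R nul x a →
      Mt L' R' nul' x (f a) := by
  induction x with
  | leaf => intro a ha h; exact (hf.iff a ha).mpr h
  | node x y ihx ihy =>
    intro a ha h
    refine ⟨fun h1 => h.1 ((hf.iff a ha).mp h1), ?_, ?_⟩
    · rw [hf.hL a ha]; exact ihx (hf.SL a ha) h.2.1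
    · rw [hf.hR a ha]; exact ihy (hf.SR a ha) h.2.2

theorem Rule.map {α β : Type} {L R : α → α} {nul : α} {L' R' : β → β} {nul' : β} {S : α → Prop}
    {f : α → β} (hf : Hom L R nul L' R' nul' S f) {p q p' q' : Prop} (hp : p → p') (hq : q → q')
    {c v w c1 v1 w1 c2 v2 w2 : α} (hc : S c) (hv : S v) (hw : S w)
    (h : Rule L R nul p q c v w c1 v1 w1 c2 v2 w2) :
    Rule L' R' nul' p' q' (f c) (f v) (f w) (f c1) (f v1) (f w1) (f c2) (f v2) (f w2) := by
  have sc := hf.SL c hc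
  have s1 := hf.SR _ sc
  have s2 := hf.SR _ s1
  have s3 := hf.SR _ s2
  have s4 := hf.SR _ s3
  have s5 := hf.SR _ s4
  have s6 := hf.SR _ s5
  have s7 := hf.SR _ s6
  have sv := hf.SL v hv
  have sR := hf.SR c hc
  have eL := hf.hL c hc
  have e1 := hf.hR _ sc
  have e2 := hf.hR _ s1
  have e3 := hf.hR _ s2
  have e4 := hf.hR _ s3
  have e5 := hf.hR _ s4
  have e6 := hf.hR _ s5
  have e7 := hf.hR _ s6
  have ev := hf.hL v hv
  have eR := hf.hR c hc
  have ew := hf.hL w hw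
  have ewR := hf.hR w hw
  have evR := hf.hR v hv
  have eRL := hf.hL _ sR
  have eRR := hf.hR _ sR
  unfold Rule
  rw [eL, e1, e2, e3, e4, e5, e6, e7, ev, eR, ew, ewR, evR, eRL, eRR]
  refine IT.imp (hf.iff _ sc) (fun h => by rw [h]) ?_ h
  refine IT.imp (hf.iff _ s1) (fun h => by rw [h, hf.hn]) ?_
  refine IT.imp (hf.iff _ s2) (fun h => by rw [h]) ?_
  refine IT.imp (hf.iff _ s3) (fun h => by rw [h]) ?_
  refine IT.imp (hf.iff _ s4) (fun h => by rw [h, hf.hn]) ?_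
  refine IT.imp (hf.iff _ s5) ?_ ?_
  · rintro ⟨h0, ⟨h1, h2, h3, h4⟩, ⟨h5, h6, h7, h8⟩⟩
    exact ⟨fun h9 => h0 ((hf.iff _ hw).mp h9), ⟨hp h1, by rw [h2], by rw [h3], by rw [h4]⟩,
      ⟨hq h5, by rw [h6], by rw [h7], by rw [h8]⟩⟩
  refine IT.imp (hf.iff _ s6) ?_ ?_
  · rintro ⟨⟨h1, h2, h3⟩, ⟨h5, h6, h7, h8⟩⟩
    exact ⟨⟨hp h1, by rw [h2], by rw [h3]⟩, ⟨hq h5, by rw [h6], by rw [h7], by rw [h8]⟩⟩
  refine IT.imp (hf.iff _ s7) ?_ ?_
  · refine IT.imp (hf.iff _ sv) ?_ ?_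
    · rintro ⟨h1, h2, h3, h4⟩
      exact ⟨hp h1, by rw [h2], by rw [h3], by rw [h4]⟩
    · rintro ⟨h1, h2, h3, h4⟩
      exact ⟨hp h1, by rw [h2], by rw [h3], by rw [h4]⟩
  · refine IT.imp (hf.iff _ sv) (fun h => by rw [h]) ?_
    rintro ⟨⟨h1, h2, h3⟩, ⟨h5, h6, h7, h8⟩⟩
    exact ⟨⟨hp h1, by rw [h2], by rw [h3]⟩, ⟨hq h5, by rw [h6], by rw [h7], by rw [h8]⟩⟩

theorem Rule.mono {α : Type} {L R : α → α} {nul : α} {p q p' q' : Prop}
    {c v w c1 v1 w1 c2 v2 w2 c1' v1' w1' c2' v2' w2' : α}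
    (hp : p → p' ∧ c1' = c1 ∧ v1' = v1 ∧ w1' = w1) (hq : q → q' ∧ c2' = c2 ∧ v2' = v2 ∧ w2' = w2)
    (h : Rule L R nul p q c v w c1 v1 w1 c2 v2 w2) :
    Rule L R nul p' q' c v w c1' v1' w1' c2' v2' w2' := by
  unfold Rule
  refine IT.imp Iff.rfl id ?_ h
  refine IT.imp Iff.rfl id ?_
  refine IT.imp Iff.rfl id ?_
  refine IT.imp Iff.rfl id ?_
  refine IT.imp Iff.rfl id ?_
  refine IT.imp Iff.rfl ?_ ?_
  · rintro ⟨h0, ⟨h1, h2, h3, h4⟩, ⟨h5, h6, h7, h8⟩⟩
    obtain ⟨a1, a2, a3, a4⟩ := hp h1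
    obtain ⟨b1, b2, b3, b4⟩ := hq h5
    exact ⟨h0, ⟨a1, a2.trans h2, a3.trans h3, a4.trans h4⟩,
      ⟨b1, b2.trans h6, b3.trans h7, b4.trans h8⟩⟩
  refine IT.imp Iff.rfl ?_ ?_
  · rintro ⟨⟨h1, h2, h3⟩, ⟨h5, h6, h7, h8⟩⟩
    obtain ⟨a1, a2, a3, a4⟩ := hp h1
    obtain ⟨b1, b2, b3, b4⟩ := hq h5
    exact ⟨⟨a1, a2.trans h2, a3.trans h3⟩,
      ⟨b1, b2.trans h6, (b3.trans h7).trans a4.symm, b4.trans h8⟩⟩
  refine IT.imp Iff.rfl ?_ ?_
  · refine IT.imp Iff.rfl ?_ ?_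
    · rintro ⟨h1, h2, h3, h4⟩
      obtain ⟨a1, a2, a3, a4⟩ := hp h1
      exact ⟨a1, a2.trans h2, a3.trans h3, a4.trans h4⟩
    · rintro ⟨h1, h2, h3, h4⟩
      obtain ⟨a1, a2, a3, a4⟩ := hp h1
      exact ⟨a1, a2.trans h2, a3.trans h3, a4.trans h4⟩
  · refine IT.imp Iff.rfl id ?_
    rintro ⟨⟨h1, h2, h3⟩, ⟨h5, h6, h7, h8⟩⟩
    obtain ⟨a1, a2, a3, a4⟩ := hp h1
    obtain ⟨b1, b2, b3, b4⟩ := hq h5
    exact ⟨⟨a1, a2.trans h2, a3.trans h3⟩,
      ⟨b1, b2.trans h6, (b3.trans h7).trans a4.symm, b4.trans h8⟩⟩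

/-- **Soundness of the rule.** -/
theorem Rule.sound {p q : Prop} {c : Prog} {v w c1 v1 w1 c2 v2 w2 : Tr}
    (h : Rule fst snd leaf p q (code c) v w c1 v1 w1 c2 v2 w2)
    (hp : p → ∀ c', c1 = code c' → ∃ t, Eval zero c' v1 w1 t)
    (hq : q → ∀ c', c2 = code c' → ∃ t, Eval zero c' v2 w2 t) : ∃ t, Eval zero c v w t := by
  cases c with
  | id =>
    simp [Rule, IT, code, num] at h
    subst h
    exact ⟨_, Eval.id _⟩
  | nil =>
    simp [Rule, IT, code, num] at h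
    subst h
    exact ⟨_, Eval.nil _⟩
  | fst =>
    simp [Rule, IT, code, num] at h
    subst h
    exact ⟨_, Eval.fst _⟩
  | snd =>
    simp [Rule, IT, code, num] at h
    subst h
    exact ⟨_, Eval.snd _⟩
  | query =>
    simp [Rule, IT, code, num] at h
    subst h
    exact ⟨_, Eval.query v⟩
  | pair f g =>
    simp [Rule, IT, code, num] at h
    obtain ⟨h0, ⟨h1, h2, h3, h4⟩, ⟨h5, h6, h7, h8⟩⟩ := h
    obtain ⟨s, hs⟩ := hp h1 f h2
    obtain ⟨t, ht⟩ := hq h5 g h6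
    cases w with
    | leaf => exact absurd rfl h0
    | node x y =>
      simp only [fst_node] at h4
      simp only [snd_node] at h8
      subst h3 h7 h4 h8
      exact ⟨_, Eval.pair hs ht⟩
  | comp f g =>
    simp [Rule, IT, code, num] at h
    obtain ⟨⟨h1, h2, h3⟩, ⟨h5, h6, h7, h8⟩⟩ := h
    obtain ⟨s, hs⟩ := hp h1 g h2
    obtain ⟨t, ht⟩ := hq h5 f h6
    subst h3 h7 h8
    exact ⟨_, Eval.comp hs ht⟩
  | cond f g =>
    simp [Rule, IT, code, num] at h
    by_cases h9 : Tr.fst v = leaf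
    · obtain ⟨h1, h2, h3, h4⟩ := h.1 h9
      obtain ⟨s, hs⟩ := hp h1 f h2
      subst h3 h4
      exact ⟨_, Eval.condNil h9 hs⟩
    · obtain ⟨h1, h2, h3, h4⟩ := h.2 h9
      obtain ⟨s, hs⟩ := hp h1 g h2
      subst h3 h4
      exact ⟨_, Eval.condNode h9 hs⟩
  | loop f =>
    simp [Rule, IT, code, num] at h
    by_cases h9 : Tr.fst v = leaf
    · have := h.1 h9
      subst this
      exact ⟨_, Eval.loopDone h9⟩
    · obtain ⟨⟨h1, h2, h3⟩, ⟨h5, h6, h7, h8⟩⟩ := h.2 h9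
      obtain ⟨s, hs⟩ := hp h1 f h2
      obtain ⟨t, ht⟩ := hq h5 (Prog.loop f) h6
      subst h3 h7 h8
      exact ⟨_, Eval.loopStep h9 hs ht⟩

/-! ### the tree of a pointer -/

open Classical in
/-- the tree of a pointer, with fuel -/
noncomputable def tree {α : Type} (L R : α → α) (nul : α) : ℕ → α → Tr
  | 0, _ => leaf
  | n + 1, a => if a = nul then leaf else node (tree L R nul n (L a)) (tree L R nul n (R a))

theorem tree_nul {α : Type} (L R : α → α) (nul : α) (n : ℕ) : tree L R nul n nul = leaf := by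
  cases n <;> simp [tree]

theorem tree_fuel {α : Type} {L R : α → α} {nul : α} {S : α → Prop} {rk : α → ℕ}
    (hL : ∀ a, S a → S (L a)) (hR : ∀ a, S a → S (R a))
    (hH : ∀ a, S a → a ≠ nul → rk (L a) < rk a ∧ rk (R a) < rk a) :
    ∀ (n m : ℕ) (a : α), S a → rk a ≤ n → rk a ≤ m → tree L R nul n a = tree L R nul m a := by
  intro n
  induction n with
  | zero =>
    intro m a ha h1 h2
    by_cases h0 : a = nul
    · rw [h0, tree_nul, tree_nul]
    · have := (hH a ha h0).1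
      omega
  | succ n ih =>
    intro m a ha h1 h2
    by_cases h0 : a = nul
    · rw [h0, tree_nul, tree_nul]
    · obtain ⟨h3, h4⟩ := hH a ha h0
      cases m with
      | zero => omega
      | succ m =>
        simp only [tree, if_neg h0]
        rw [ih m (L a) (hL a ha) (by omega) (by omega), ih m (R a) (hR a ha) (by omega) (by omega)]

theorem tree_hom {α : Type} {L R : α → α} {nul : α} {S : α → Prop} {rk : α → ℕ} (h0 : S nul)
    (hL : ∀ a, S a → S (L a)) (hR : ∀ a, S a → S (R a)) (hnL : L nul = nul) (hnR : R nul = nul)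
    (hH : ∀ a, S a → a ≠ nul → rk (L a) < rk a ∧ rk (R a) < rk a) :
    Hom L R nul fst snd leaf S (fun a => tree L R nul (rk a) a) := by
  have key : ∀ a, S a → a ≠ nul → tree L R nul (rk a) a =
      node (tree L R nul (rk (L a)) (L a)) (tree L R nul (rk (R a)) (R a)) := by
    intro a ha h
    obtain ⟨h3, h4⟩ := hH a ha h
    obtain ⟨n, hn⟩ : ∃ n, rk a = n + 1 := ⟨rk a - 1, by omega⟩
    rw [hn, tree, if_neg h,
      tree_fuel hL hR hH n (rk (L a)) (L a) (hL a ha) (by omega) le_rfl,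
      tree_fuel hL hR hH n (rk (R a)) (R a) (hR a ha) (by omega) le_rfl]
  refine ⟨tree_nul _ _ _ _, h0, hL, hR, ?_, ?_, ?_⟩
  · intro a ha
    by_cases h : a = nul
    · subst h
      simp only [tree_nul, hnL, fst_leaf]
    · simp only [key a ha h, fst_node]
  · intro a ha
    by_cases h : a = nul
    · subst h
      simp only [tree_nul, hnR, snd_leaf]
    · simp only [key a ha h, snd_node]
  · intro a ha
    constructor
    · intro h1
      by_contra h
      simp only [key a ha h] at h1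
      exact absurd h1 (by simp)
    · intro h
      subst h
      exact tree_nul _ _ _ _

/-- **Soundness of tableaux.** -/
theorem sound {α : Type} {L R : α → α} {nul : α} {S : α → Prop} {rk : α → ℕ} {T : α → Tr}
    (hT : Hom L R nul fst snd leaf S T) {lab inp out c1 c2 : α → α}
    (hlab : ∀ a, S a → S (lab a)) (hinp : ∀ a, S a → S (inp a)) (hout : ∀ a, S a → S (out a))
    (hc1 : ∀ a, S a → S (c1 a)) (hc2 : ∀ a, S a → S (c2 a))
    (hr : ∀ r, S r → Rule L R nul (rk (c1 r) < rk r) (rk (c2 r) < rk r) (lab r) (inp r) (out r)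
      (lab (c1 r)) (inp (c1 r)) (out (c1 r)) (lab (c2 r)) (inp (c2 r)) (out (c2 r))) :
    ∀ (n : ℕ) (r : α), rk r < n → S r → ∀ c, T (lab r) = code c →
      ∃ t, Eval zero c (T (inp r)) (T (out r)) t := by
  intro n
  induction n with
  | zero => intro r h; omega
  | succ n ih =>
    intro r hn hS c hc
    have h1 := Rule.map hT id id (hlab r hS) (hinp r hS) (hout r hS) (hr r hS)
    rw [hc] at h1
    exact h1.sound (fun h c' hc' => ih (c1 r) (by omega) (hc1 r hS) c' hc')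
      (fun h c' hc' => ih (c2 r) (by omega) (hc2 r hS) c' hc')

end Pool.Agent.H93.BB.Tab
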