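import Pool.Agent.H65.TS.Univ
import Pool.Agent.H93.BB.Defs

set_option autoImplicit false

/-!
# Functions computable in polynomial time uniformly in the oracle
-/

namespace Pool.Agent.H93.BB

open Pool.Agent.H88.RO Pool.Agent.H88.RO.Tr

/-- `F O v` is computable in polynomial time by one program for all oracles `O`. -/
def UFP (F : Orc → Tr → Tr) : Prop :=
  ∃ (c : Prog) (q : Polynomial ℕ), ∀ (O : Orc) (v : Tr), ∃ t ≤ q.eval (size v), Eval O c v (F O v) t

/-! ### oracle free functions -/

/-- replace all queries by the constant `leaf` -/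
def strip : Prog → Prog
  | .id => .id
  | .nil => .nil
  | .fst => .fst
  | .snd => .snd
  | .query => .nil
  | .pair f g => .pair (strip f) (strip g)
  | .comp f g => .comp (strip f) (strip g)
  | .cond f g => .cond (strip f) (strip g)
  | .loop f => .loop (strip f)

theorem strip_eval (O : Orc) {c : Prog} {v w : Tr} {t : ℕ} (h : Eval zero c v w t) :
    Eval O (strip c) v w t := by
  induction h with
  | id v => exact Eval.id v
  | nil v => exact Eval.nil v
  | fst v => exact Eval.fst v
  | snd v => exact Eval.snd v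
  | query v => exact Eval.nil v
  | pair hf hg ihf ihg => exact Eval.pair ihf ihg
  | comp hg hf ihg ihf => exact Eval.comp ihg ihf
  | condNil h hf ihf => exact Eval.condNil h ihf
  | condNode h hf ihf => exact Eval.condNode h ihf
  | loopDone h => exact Eval.loopDone h
  | loopStep h hf hl ihf ihl => exact Eval.loopStep h ihf ihl

/-- A polynomial time computable function without oracle is uniformly computable. -/
theorem UFP.pure {F : Tr → Tr} (h : FP zero F) : UFP (fun _ v => F v) := by
  obtain ⟨c, q, hc⟩ := h
  refine ⟨strip c, q, fun O v => ?_⟩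
  obtain ⟨t, ht, he⟩ := hc v
  exact ⟨t, ht, strip_eval O he⟩

namespace UFP

theorem size_bound {F : Orc → Tr → Tr} (h : UFP F) :
    ∃ q : Polynomial ℕ, ∀ O v, size (F O v) ≤ q.eval (size v) := by
  obtain ⟨c, q, hq⟩ := h
  refine ⟨2 * q, fun O v => ?_⟩
  obtain ⟨t, ht, he⟩ := hq O v
  have := he.size_le
  simp only [Polynomial.eval_mul, Polynomial.eval_ofNat]
  omega

theorem id' : UFP (fun _ v => v) :=
  ⟨Prog.id, Polynomial.X + 1, fun O v => ⟨size v + 1, by simp, Eval.id v⟩⟩

theorem comp' {F G : Orc → Tr → Tr} (hF : UFP F) (hG : UFP G) : UFP (fun O v => F O (G O v)) := by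
  obtain ⟨s, hs⟩ := hG.size_bound
  obtain ⟨cF, qF, hF⟩ := hF
  obtain ⟨cG, qG, hG⟩ := hG
  refine ⟨Prog.comp cF cG, qG + qF.comp s + Polynomial.X + 1, fun O v => ?_⟩
  obtain ⟨t1, ht1, he1⟩ := hG O v
  obtain ⟨t2, ht2, he2⟩ := hF O (G O v)
  refine ⟨t1 + t2 + size v + 1, ?_, Eval.comp he1 he2⟩
  simp only [Polynomial.eval_add, Polynomial.eval_comp, Polynomial.eval_X, Polynomial.eval_one]
  have := poly_mono qF (hs O v)
  omega

/-- composition with an oracle free function -/
theorem pure' {F : Tr → Tr} {G : Orc → Tr → Tr} (hF : FP zero F) (hG : UFP G) :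
    UFP (fun O v => F (G O v)) :=
  comp' (UFP.pure hF) hG

theorem node' {F G : Orc → Tr → Tr} (hF : UFP F) (hG : UFP G) :
    UFP (fun O v => node (F O v) (G O v)) := by
  obtain ⟨cF, qF, hF⟩ := hF
  obtain ⟨cG, qG, hG⟩ := hG
  refine ⟨Prog.pair cF cG, qF + qG + Polynomial.X + 1, fun O v => ?_⟩
  obtain ⟨t1, ht1, he1⟩ := hF O v
  obtain ⟨t2, ht2, he2⟩ := hG O v
  refine ⟨t1 + t2 + size v + 1, ?_, Eval.pair he1 he2⟩
  simp only [Polynomial.eval_add, Polynomial.eval_X, Polynomial.eval_one]
  omega

theorem fst' {F : Orc → Tr → Tr} (hF : UFP F) : UFP (fun O v => fst (F O v)) :=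
  pure' (F := fun v => fst v) (FP.fst' FP.id') hF

theorem snd' {F : Orc → Tr → Tr} (hF : UFP F) : UFP (fun O v => snd (F O v)) :=
  pure' (F := fun v => snd v) (FP.snd' FP.id') hF

theorem query' {F : Orc → Tr → Tr} (hF : UFP F) : UFP (fun O v => bit (O (dec (F O v)))) :=
  comp' (F := fun O v => bit (O (dec v)))
    ⟨Prog.query, Polynomial.X + 1, fun O v => ⟨size v + 1, by simp, Eval.query v⟩⟩ hF

theorem const' (w : Tr) : UFP (fun _ _ => w) := UFP.pure (FP.const' w)

theorem leaf' : UFP (fun _ _ => leaf) := const' leaf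

open Classical in
theorem ite' {p F G : Orc → Tr → Tr} (hp : UFP p) (hF : UFP F) (hG : UFP G) :
    UFP (fun O v => if p O v = leaf then F O v else G O v) := by
  have key : UFP (fun O v => if fst v = leaf then F O (snd v) else G O (snd v)) := by
    obtain ⟨cF, qF, hF⟩ := hF
    obtain ⟨cG, qG, hG⟩ := hG
    refine ⟨Prog.cond cF cG, qF + qG + Polynomial.X + 1, fun O v => ?_⟩
    by_cases hv : fst v = leaf
    · obtain ⟨t1, ht1, he1⟩ := hF O (snd v)
      refine ⟨t1 + size v + 1, ?_, ?_⟩
      · simp only [Polynomial.eval_add, Polynomial.eval_X, Polynomial.eval_one]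
        have := poly_mono qF (size_snd_le v)
        omega
      · simp only [hv, if_true]
        exact Eval.condNil hv he1
    · obtain ⟨t1, ht1, he1⟩ := hG O (snd v)
      refine ⟨t1 + size v + 1, ?_, ?_⟩
      · simp only [Polynomial.eval_add, Polynomial.eval_X, Polynomial.eval_one]
        have := poly_mono qG (size_snd_le v)
        omega
      · simp only [hv, if_false]
        exact Eval.condNode hv he1
  exact comp' (F := fun O v => if fst v = leaf then F O (snd v) else G O (snd v)) key (node' hp id')

theorem cs' {p F G : Orc → Tr → Tr} (hp : UFP p) (hF : UFP F) (hG : UFP G) :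
    UFP (fun O v => cs (p O v) (F O v) (G O v)) :=
  ite' hp hF hG

theorem iterate' {F N X : Orc → Tr → Tr} (hF : UFP F) (hN : UFP N) (hX : UFP X)
    (hb : ∃ P : Polynomial ℕ, ∀ O n x i, i ≤ len n → size ((F O)^[i] x) ≤ P.eval (size n + size x)) :
    UFP (fun O v => (F O)^[len (N O v)] (X O v)) := by
  have key : UFP (fun O v => (F O)^[len (fst v)] (snd v)) := by
    obtain ⟨c, q, hc⟩ := hF
    obtain ⟨P, hP⟩ := hb
    refine ⟨Prog.comp (Prog.loop (FP.loopBody c)) (Prog.pair Prog.fst Prog.snd),
      (Polynomial.X + 1) * (q.comp (P.comp (2 * Polynomial.X)) +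
        7 * (Polynomial.X + P.comp (2 * Polynomial.X) + 2)) +
        4 * (Polynomial.X + 1), fun O v => ?_⟩
    have hlen : len (fst v) ≤ size v := by
      have := len_le_size (fst v); have := size_fst_le v; omega
    obtain ⟨t, ht, he⟩ := FP.eval_loop (O := O) (hc O) (P.eval (2 * size v)) (fst v) (snd v) (by
      intro i hi
      refine (hP O (fst v) (snd v) i hi).trans (poly_mono P ?_)
      have := size_fst_le v; have := size_snd_le v; omega)
    have h1 := Eval.comp (Eval.pair (Eval.fst (O := O) v) (Eval.snd v)) he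
    refine ⟨_, ?_, h1⟩
    simp only [Polynomial.eval_add, Polynomial.eval_mul, Polynomial.eval_comp, Polynomial.eval_X,
      Polynomial.eval_one, Polynomial.eval_ofNat]
    have h2 : (len (fst v) + 1) * (q.eval (P.eval (2 * size v)) +
        7 * (size (fst v) + P.eval (2 * size v) + 2)) ≤
        (size v + 1) * (q.eval (P.eval (2 * size v)) +
        7 * (size v + P.eval (2 * size v) + 2)) := by
      apply Nat.mul_le_mul (by omega)
      have := size_fst_le v
      omega
    omega
  exact comp' (F := fun O v => (F O)^[len (fst v)] (snd v)) key (node' hN hX)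

/-- iteration of a function that adds at most a constant to the size -/
theorem iterate_add {F N X : Orc → Tr → Tr} (hF : UFP F) (hN : UFP N) (hX : UFP X) (c : ℕ)
    (hb : ∀ O x, size (F O x) ≤ size x + c) : UFP (fun O v => (F O)^[len (N O v)] (X O v)) := by
  refine iterate' hF hN hX ⟨(Polynomial.C c + 1) * Polynomial.X, fun O n x i hi => ?_⟩
  have h1 : ∀ i, size ((F O)^[i] x) ≤ size x + c * i := by
    intro i
    induction i with
    | zero => simp
    | succ i ih =>
      rw [Function.iterate_succ_apply']
      have h2 := hb O ((F O)^[i] x)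
      have h3 : c * (i + 1) = c * i + c := by ring
      omega
  have h2 := h1 i
  have h3 := len_le_size n
  have h4 : c * i ≤ c * (size n + size x) := Nat.mul_le_mul_left _ (by omega)
  simp only [Polynomial.eval_add, Polynomial.eval_mul, Polynomial.eval_C, Polynomial.eval_X,
    Polynomial.eval_one]
  have h5 : (c + 1) * (size n + size x) = c * (size n + size x) + (size n + size x) := by ring
  omega

end UFP

/-! ### relations -/

/-- a relation with a uniform program -/
def URel (B : Orc) (R : Orc → List Bool → List Bool → Bool) (c : Prog) (q : Polynomial ℕ) : Prop :=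
  ∀ (A : Orc) (x y : List Bool), ∃ t ≤ q.eval (x.length + y.length),
    Eval (join A B) c (node (enc x) (enc y)) (bit (R A x y)) t

/-- relations given by uniformly computable tests on trees -/
theorem exists_URel {B : Orc} {F : Orc → Tr → Tr} (hF : UFP F)
    {R : Orc → List Bool → List Bool → Bool}
    (h : ∀ A x y, F (join A B) (node (enc x) (enc y)) ≠ leaf ↔ R A x y = true) :
    ∃ (c : Prog) (q : Polynomial ℕ), URel B R c q := by
  obtain ⟨c, q, hc⟩ := UFP.cs' hF UFP.leaf' (UFP.const' tt)
  refine ⟨c, q.comp (4 * Polynomial.X + 3), fun A x y => ?_⟩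
  obtain ⟨t, ht, he⟩ := hc (join A B) (node (enc x) (enc y))
  refine ⟨t, ht.trans ?_, ?_⟩
  · simp only [Polynomial.eval_comp, Polynomial.eval_add, Polynomial.eval_mul,
      Polynomial.eval_ofNat, Polynomial.eval_X]
    apply poly_mono
    have h1 := size_enc_le x
    have h2 := size_enc_le y
    simp only [size]
    omega
  · have : cs (F (join A B) (node (enc x) (enc y))) leaf tt = bit (R A x y) := by
      by_cases h1 : R A x y = true
      · rw [cs_neg _ _ ((h A x y).mpr h1), h1]; rfl
      · rw [cs_pos _ _ (by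
          by_contra hcon
          exact h1 ((h A x y).mp hcon))]
        rw [Bool.not_eq_true] at h1
        rw [h1]; rfl
    rw [← this]
    exact he

end Pool.Agent.H93.BB
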